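import Pool.Agent.Lib.MP_776403_ag.SD.CE.Cond
import Pool.Agent.Lib.MP_776403_ag.SD.UK.Low

/-!
# Equality in the Castelnuovo bound: `V0 ^ m` is spanned by the `l^α e_i` (helper57)

If the Hilbert function is `∑ binom (n + (m - j_i)) n + o(m^(n-1))` then it is at most
`∑_(j_i ≤ m) binom (n + (m - j_i)) n` for all `m`.
-/

set_option autoImplicit false

open MvPolynomial

noncomputable section

namespace Pool.Agent.Lib.MP_776403_ag.SD.CE

open UK

namespace HupAux

variable {n c : ℕ} {L : Type} [Field L] [Algebra ℂ L] (G : Gen n c L)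

theorem t_mem (p : Fin n × Fin c) : G.t p ∈ G.K0 := IntermediateField.subset_adjoin ℂ _ ⟨p, rfl⟩

/-- `T ↦ t`, `U_i ↦ X_i`. -/
def tok : Gen.P n c →ₐ[ℂ] MvPolynomial (Fin n) G.K0 :=
  MvPolynomial.aeval (Sum.elim (fun p => C (⟨G.t p, t_mem G p⟩ : G.K0)) X)

theorem aeval_tok (p : Gen.P n c) : aeval G.l (tok G p) = aeval (Sum.elim G.t G.l) p := by
  have h : ((aeval G.l : MvPolynomial (Fin n) G.K0 →ₐ[G.K0] L).restrictScalars ℂ).comp (tok G) =
      (aeval (Sum.elim G.t G.l) : Gen.P n c →ₐ[ℂ] L) := by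
    refine MvPolynomial.algHom_ext fun o => ?_
    rw [AlgHom.comp_apply, AlgHom.restrictScalars_apply, tok, aeval_X, aeval_X]
    rcases o with o | o
    · rw [Sum.elim_inl, Sum.elim_inl, aeval_C]
      rfl
    · rw [Sum.elim_inr, Sum.elim_inr, aeval_X]
  exact DFunLike.congr_fun h p

/-- Elements of `K` are fractions. -/
theorem frac (x : L) (hx : x ∈ G.K) : ∃ a b : MvPolynomial (Fin n) G.K0, b ≠ 0 ∧
    aeval G.l b * x = aeval G.l a := by
  obtain ⟨p, q, hpq⟩ := (IntermediateField.mem_adjoin_range_iff ℂ (Sum.elim G.t G.l) x).1 hx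
  by_cases h : aeval (Sum.elim G.t G.l) q = 0
  · refine ⟨0, 1, one_ne_zero, ?_⟩
    rw [hpq, h, div_zero, mul_zero, map_zero]
  · refine ⟨tok G p, tok G q, ?_, ?_⟩
    · intro h0
      apply h
      rw [← aeval_tok, h0, map_zero]
    · rw [aeval_tok, aeval_tok, hpq]
      exact mul_div_cancel₀ _ h

theorem aeval_mem_K (p : MvPolynomial (Fin n) G.K0) : aeval G.l p ∈ G.K := by
  induction p using MvPolynomial.induction_on with
  | C a =>
    rw [aeval_C]
    exact LowAux.K0_le G a.2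
  | add p q hp hq =>
    rw [map_add]
    exact add_mem hp hq
  | mul_X p i hp =>
    rw [map_mul, aeval_X]
    exact mul_mem hp (LowAux.mem_K G i)

/-- Independence over the polynomials. -/
theorem hind (hl : AlgebraicIndependent G.K0 G.l) {D : ℕ} (e : Fin D → L)
    (he : LinearIndependent G.K e) (p : Fin D → MvPolynomial (Fin n) G.K0)
    (h : ∑ i, aeval G.l (p i) * e i = 0) (i : Fin D) : p i = 0 := by
  rw [Fintype.linearIndependent_iff] at he
  have h1 := he (fun i => ⟨aeval G.l (p i), aeval_mem_K G (p i)⟩) (by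
    rw [← h]
    exact Finset.sum_congr rfl fun i _ => Algebra.smul_def _ _) i
  have h2 : aeval G.l (p i) = 0 := congrArg Subtype.val h1
  exact hl (by rw [h2, map_zero])

/-- Common denominators. -/
theorem hrep {D : ℕ} (e : Fin D → L) (hs : Submodule.span G.K (Set.range e) = ⊤) (r : L) :
    ∃ (q0 : MvPolynomial (Fin n) G.K0) (p0 : Fin D → MvPolynomial (Fin n) G.K0), q0 ≠ 0 ∧
      aeval G.l q0 * r = ∑ i, aeval G.l (p0 i) * e i := by
  classical
  have hr : r ∈ Submodule.span G.K (Set.range e) := by rw [hs]; trivial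
  obtain ⟨κ, hκ⟩ := (Submodule.mem_span_range_iff_exists_fun G.K).1 hr
  have h1 : ∀ i, ∃ a b : MvPolynomial (Fin n) G.K0, b ≠ 0 ∧
      aeval G.l b * (κ i : L) = aeval G.l a := fun i => frac G _ (κ i).2
  choose a b hb hab using h1
  refine ⟨∏ i, b i, fun i => a i * ∏ j ∈ Finset.univ.erase i, b j,
    Finset.prod_ne_zero_iff.2 fun i _ => hb i, ?_⟩
  rw [← hκ, Finset.mul_sum]
  refine Finset.sum_congr rfl fun i _ => ?_
  rw [← Finset.mul_prod_erase Finset.univ b (Finset.mem_univ i), map_mul, map_mul, ← hab i]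
  have h2 : κ i • e i = (κ i : L) * e i := Algebra.smul_def _ _
  rw [h2]
  ring

theorem mem_pow (m : ℕ) (j : ℕ) (hj : j ≤ m) {x : L} (hx : x ∈ G.V0 ^ j)
    (p : MvPolynomial (Fin n) G.K0) (hp : p.totalDegree ≤ m - j) :
    aeval G.l p * x ∈ G.V0 ^ m := by
  rw [p.as_sum, map_sum, Finset.sum_mul]
  refine Submodule.sum_mem _ fun α hα => ?_
  rw [aeval_monomial, Finsupp.prod_fintype _ _ (fun k => pow_zero _), mul_assoc, ← Algebra.smul_def]
  refine Submodule.smul_mem _ _ ?_
  have h1 := Submodule.mul_mem_mul (LowAux.lprod_mem G α) hx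
  rw [← pow_add] at h1
  refine LowAux.pow_mono G ?_ h1
  have h2 : ∑ k, α k = α.sum fun _ e => e := by
    rw [Finsupp.sum_fintype _ _ (fun _ => rfl)]
  have h3 := MvPolynomial.le_totalDegree hα
  omega

end HupAux

open HupAux CondAux in
/-- The Hilbert function, if the second coefficients agree. -/
theorem ceEq (hFk : S_Fk) (hMon : S_Mon) {n c m0 : ℕ} {L : Type} [Field L] [Algebra ℂ L]
    (G : Gen n c L) (hG : G.Ok m0) (hn : 1 ≤ n) {D : ℕ} (e : Fin D → L) (jj : Fin D → ℕ)
    (he : LinearIndependent G.K e) (hs : Submodule.span G.K (Set.range e) = ⊤)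
    (hV : ∀ i, e i ∈ G.V ^ (jj i))
    (hsmall : ∀ m1, ∃ m, m1 < m ∧ (∀ i, jj i ≤ m) ∧
      Module.finrank ℂ (G.V ^ m : Submodule ℂ L) <
        ∑ i, (n + (m - jj i)).choose n + (n - 1 + (m - m1)).choose (n - 1)) (m1 : ℕ) :
    Module.finrank ℂ (G.V ^ m1 : Submodule ℂ L) ≤
      ∑ i ∈ Finset.univ.filter (fun i => jj i ≤ m1), (n + (m1 - jj i)).choose n := by
  classical
  have hl : AlgebraicIndependent G.K0 G.l := hMon.2 n c m0 L G hG
  obtain ⟨m, hm1, hm, hlt⟩ := hsmall m1
  have hcond : ∀ r ∈ G.V0 ^ m1, r ≠ 0 → ∃ (q : MvPolynomial (Fin n) G.K0)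
      (A : Fin D → MvPolynomial (Fin n) G.K0), q ≠ 0 ∧
      aeval G.l q * r = ∑ i, aeval G.l (A i) * e i ∧ q.totalDegree = 0 ∧
      ∀ i, A i ≠ 0 → jj i + (A i).totalDegree ≤ m1 := by
    intro r hr hr0
    obtain ⟨q0, p0, hq0, h0⟩ := hrep G e hs r
    obtain ⟨q, A, hq, hqA, hu⟩ := cond G.l hl e (HupAux.hind G hl e he) r q0 hq0 p0 h0
    refine ⟨q, A, hq, hqA, ?_⟩
    by_contra hno
    have hbig : 1 ≤ q.totalDegree ∨ ∃ i, A i ≠ 0 ∧ m1 < jj i + (A i).totalDegree := by
      by_contra hb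
      push Not at hb
      exact hno ⟨by omega, fun i hi => hb.2 i hi⟩
    obtain ⟨h1, h2⟩ := hFk n c m0 L G hG m
    have h3 := count hMon.1 hn G.l hl e (HupAux.hind G hl e he) jj r hr0 q A hq hu m1 m hm1 hm hbig
      (G.V0 ^ m) (fun i p hp => mem_pow G m (jj i) (hm i) (LowAux.V_sub G _ (hV i)) p hp)
      (fun p hp => mem_pow G m m1 (by omega) hr p hp)
    rw [h1] at h3
    omega
  rw [← (hFk n c m0 L G hG m1).1]
  let N : {i : Fin D // jj i ≤ m1} → ℕ := fun i => m1 - jj i.1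
  have h4 := fr_PsiF (k := G.K0) hMon.1 G.l (fun i : {i : Fin D // jj i ≤ m1} => e i.1) N
  have i1 := h4.2.1
  have hle : (G.V0 ^ m1 : Submodule G.K0 L) ≤
      LinearMap.range (PsiF (k := G.K0) G.l (fun i : {i : Fin D // jj i ≤ m1} => e i.1) N) := by
    intro r hr
    by_cases hr0 : r = 0
    · rw [hr0]
      exact Submodule.zero_mem _
    obtain ⟨q, A, hq, hqA, hq0, hA⟩ := hcond r hr hr0
    rw [totalDegree_eq_zero_iff_eq_C] at hq0
    set a := coeff 0 q with ha
    have ha0 : a ≠ 0 := by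
      intro h
      apply hq
      rw [hq0, h, map_zero]
    have hr2 : r = ∑ i, aeval G.l (C a⁻¹ * A i) * e i := by
      rw [hq0, aeval_C] at hqA
      have h5 : algebraMap G.K0 L a ≠ 0 := by
        intro h
        exact ha0 ((algebraMap G.K0 L).injective (by rw [h, map_zero]))
      refine mul_left_cancel₀ h5 ?_
      rw [hqA, Finset.mul_sum]
      refine Finset.sum_congr rfl fun i _ => ?_
      rw [map_mul, aeval_C, map_inv₀]
      field_simp
    have hdeg : ∀ i : {i : Fin D // jj i ≤ m1}, (C a⁻¹ * A i.1).totalDegree ≤ m1 - jj i.1 := by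
      intro i
      by_cases hi : A i.1 = 0
      · rw [hi, mul_zero, totalDegree_zero]
        exact Nat.zero_le _
      · have h6 := hA i.1 hi
        have h7 := totalDegree_mul (C a⁻¹ : MvPolynomial (Fin n) G.K0) (A i.1)
        rw [totalDegree_C] at h7
        omega
    refine ⟨fun i => ⟨C a⁻¹ * A i.1, (mem_restrictTotalDegree (σ := Fin n) _ _).2 (hdeg i)⟩, ?_⟩
    rw [PsiF_apply, hr2]
    rw [← Finset.sum_subtype (Finset.univ.filter fun i => jj i ≤ m1) (fun i => by simp)
      (fun i => aeval G.l (C a⁻¹ * A i) * e i)]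
    refine Finset.sum_subset (Finset.filter_subset _ _) fun i _ hi => ?_
    have h8 : A i = 0 := by
      by_contra h
      have := hA i h
      exact hi (Finset.mem_filter.2 ⟨Finset.mem_univ _, by omega⟩)
    rw [h8, mul_zero, map_zero, zero_mul]
  refine (Submodule.finrank_mono hle).trans (h4.1.trans (le_of_eq ?_))
  exact (Finset.sum_subtype (Finset.univ.filter fun i => jj i ≤ m1) (fun i => by simp)
    (fun i => (n + (m1 - jj i)).choose n)).symm

end Pool.Agent.Lib.MP_776403_ag.SD.CE
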