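import Pool.Agent.Lib.MP_776403_ag.SD.UK.Nm

/-!
# Equality of the second coefficients (helper57)
-/

set_option autoImplicit false

open MvPolynomial

noncomputable section

namespace Pool.Agent.Lib.MP_776403_ag.SD.CE

open UK

open Filter Topology NmAux in
/-- If `q0'(1) = ∑ jj i` then the Hilbert function is `∑ binom (n + (m - jj i)) n + o(m^(n-1))`. -/
theorem nm2 (N c n D : ℕ) (f : ℕ → ℕ) (q0 : Polynomial ℤ) (jj : Fin D → ℕ) (hcN : c + 1 ≤ N)
    (hn : n = N - c) (hQ : QP N c f q0) (hq1 : q0.eval 1 = (D : ℤ))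
    (hq2 : (Polynomial.derivative q0).eval 1 = ((∑ i, jj i : ℕ) : ℤ)) (m1 : ℕ) :
    ∃ m, m1 < m ∧ (∀ i, jj i ≤ m) ∧
      f m < ∑ i, (n + (m - jj i)).choose n + (n - 1 + (m - m1)).choose (n - 1) := by
  obtain ⟨k, rfl⟩ : ∃ k, N = c + (k + 1) := ⟨N - c - 1, by omega⟩
  have hnk : n = k + 1 := by omega
  subst hnk
  have hG : (1 - PowerSeries.X) ^ (k + 1 + 1) * ps f = (q0 : PowerSeries ℤ) := by
    unfold QP at hQ
    rw [Polynomial.coe_mul, Polynomial.coe_pow, Polynomial.coe_sub, Polynomial.coe_one, Polynomial.coe_X,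
      show c + (k + 1) + 1 = c + (k + 1 + 1) by ring, pow_add, mul_assoc] at hQ
    exact mul_left_cancel₀ (pow_ne_zero _ one_sub_ne) hQ
  have hcf : ∀ m, PowerSeries.coeff m (ps f) = (f m : ℤ) := fun m => PowerSeries.coeff_mk _ _
  have hjm : ∀ᶠ m : ℕ in atTop, ∀ i, jj i ≤ m := by
    filter_upwards [eventually_ge_atTop (∑ i, jj i)] with m hm i
    exact (Finset.single_le_sum (fun i _ => Nat.zero_le (jj i)) (Finset.mem_univ i)).trans hm
  have hM := PowerSeries.mk_add_choose_mul_one_sub_pow_eq_one (S := ℤ) (d := k + 1)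
  set M : PowerSeries ℤ := PowerSeries.mk fun n => ((k + 1 + n).choose (k + 1) : ℤ) with hMd
  set G : PowerSeries ℤ := ps f - ∑ i, PowerSeries.X ^ jj i * M with hGd
  set R : Polynomial ℤ := q0 - ∑ i, Polynomial.X ^ jj i with hRd
  have hR1 : R.IsRoot 1 := by
    rw [Polynomial.IsRoot, hRd, Polynomial.eval_sub, Polynomial.eval_finsetSum, hq1]
    simp
  obtain ⟨s, hs⟩ := Polynomial.dvd_iff_isRoot.2 hR1
  have hGR : (1 - PowerSeries.X) ^ (k + 1 + 1) * G = (R : PowerSeries ℤ) := by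
    rw [hGd, hRd, mul_sub, hG, Finset.mul_sum, Polynomial.coe_sub]
    congr 1
    rw [← Polynomial.coeToPowerSeries.ringHom_apply, map_sum]
    refine Finset.sum_congr rfl fun i _ => ?_
    rw [Polynomial.coeToPowerSeries.ringHom_apply, Polynomial.coe_pow, Polynomial.coe_X]
    calc (1 - PowerSeries.X) ^ (k + 1 + 1) * (PowerSeries.X ^ jj i * M) =
        PowerSeries.X ^ jj i * (M * (1 - PowerSeries.X) ^ (k + 1 + 1)) := by ring
      _ = PowerSeries.X ^ jj i := by rw [hM, mul_one]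
  have hGs : (1 - PowerSeries.X) ^ (k + 1) * G = ((-s : Polynomial ℤ) : PowerSeries ℤ) := by
    refine mul_left_cancel₀ one_sub_ne ?_
    rw [← mul_assoc, ← pow_succ', hGR, hs, Polynomial.coe_mul, Polynomial.coe_sub, Polynomial.coe_X, Polynomial.coe_C,
      Polynomial.coe_neg]
    simp only [map_one]
    ring
  have h11 : (Polynomial.derivative R).eval 1 = s.eval 1 := by
    rw [hs, Polynomial.derivative_mul]
    simp
  have h12 : (Polynomial.derivative R).eval 1 = 0 := by
    rw [hRd, Polynomial.derivative_sub, Polynomial.eval_sub, Polynomial.derivative_sum, Polynomial.eval_finsetSum,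
      hq2]
    push_cast
    rw [sub_eq_zero]
    refine Finset.sum_congr rfl fun i _ => ?_
    rw [Polynomial.derivative_X_pow]
    simp
  have hs0 : s.eval 1 = 0 := by rw [← h11, h12]
  have t5 := tgf k G (-s) hGs
  rw [Polynomial.eval_neg, hs0, neg_zero, Int.cast_zero, zero_mul] at t5
  have t6 := tsub k m1
  have hpos : (0 : ℝ) < 1 / (k.factorial : ℝ) := by positivity
  have h1 := (t5.eventually (gt_mem_nhds (half_pos hpos)))
  have h2 := (t6.eventually (lt_mem_nhds (half_lt_self hpos)))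
  obtain ⟨m, h3, h4, h5, h6⟩ := (h1.and (h2.and (hjm.and (eventually_gt_atTop (m1 + 1))))).exists
  refine ⟨m, by omega, h5, ?_⟩
  have h7 : PowerSeries.coeff m G = (f m : ℤ) - ∑ i, ((k + 1 + (m - jj i)).choose (k + 1) : ℤ) := by
    rw [hGd, map_sub, hcf, map_sum]
    congr 1
    refine Finset.sum_congr rfl fun i _ => ?_
    rw [PowerSeries.coeff_X_pow_mul', if_pos (h5 i), hMd, PowerSeries.coeff_mk]
  have m0 : (0 : ℝ) < (m : ℝ) ^ k := by
    have : 0 < m := by omega
    have : (0 : ℝ) < m := by exact_mod_cast this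
    positivity
  have h8 : ((PowerSeries.coeff m G : ℤ) : ℝ) < (((k + (m - m1)).choose k : ℕ) : ℝ) := by
    have h9 := h3.trans h4
    rwa [div_lt_div_iff_of_pos_right m0] at h9
  have h10 : PowerSeries.coeff m G < (((k + (m - m1)).choose k : ℕ) : ℤ) := by exact_mod_cast h8
  rw [h7] at h10
  have h13 : (f m : ℤ) < ((∑ i, (k + 1 + (m - jj i)).choose (k + 1) +
      (k + 1 - 1 + (m - m1)).choose (k + 1 - 1) : ℕ) : ℤ) := by
    rw [show k + 1 - 1 = k from rfl]
    push_cast
    linarith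
  exact_mod_cast h13

end Pool.Agent.Lib.MP_776403_ag.SD.CE
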