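import Pool.Agent.Lib.MP_776403_ag.SD.CE.Spec
import Pool.Agent.Lib.MP_776403_ag.SD.CE.Hup
import Pool.Agent.Lib.MP_776403_ag.SD.CE.Nm2
import Pool.Agent.Lib.MP_776403_ag.SD.UK.Main

/-!
# Equality in the Castelnuovo bound determines the Hilbert function (helper57)

`ceC : S_CE`.
-/

set_option autoImplicit false

open MvPolynomial

noncomputable section

namespace Pool.Agent.Lib.MP_776403_ag.SD.CE

open UK

namespace CEcAux

/-- The counts are determined. -/
theorem counts (D c J : ℕ) (jj : Fin D → ℕ) (hc : 1 ≤ c) (hJ : ∀ i, jj i ≤ J)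
    (hcard : ∀ j : ℕ, min D (j * c + 1) ≤ (Finset.univ.filter fun i => jj i ≤ j).card)
    (hsum : ∑ j ∈ Finset.range D, (D - 1 - c * j) ≤ ∑ i, jj i) (j : ℕ) :
    (Finset.univ.filter fun i => jj i ≤ j).card = min D (j * c + 1) := by
  classical
  by_contra hne
  have hlt : min D (j * c + 1) < (Finset.univ.filter fun i => jj i ≤ j).card :=
    lt_of_le_of_ne (hcard j) (Ne.symm hne)
  set K := J + D + j + 1 with hK
  have h1 : ∑ i, jj i = ∑ j ∈ Finset.range K, (D - (Finset.univ.filter fun i => jj i ≤ j).card) := by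
    have h2 : ∀ i, jj i = ∑ j ∈ Finset.range K, if j < jj i then 1 else 0 := by
      intro i
      rw [← Finset.card_filter]
      have h3 : (Finset.range K).filter (fun j => j < jj i) = Finset.range (jj i) := by
        ext a
        have := hJ i
        simp only [Finset.mem_filter, Finset.mem_range]
        omega
      rw [h3, Finset.card_range]
    rw [Finset.sum_congr rfl fun i _ => h2 i, Finset.sum_comm]
    refine Finset.sum_congr rfl fun j _ => ?_
    rw [← Finset.card_filter]
    have h4 := Finset.card_filter_add_card_filter_not (s := (Finset.univ : Finset (Fin D)))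
      (fun i => jj i ≤ j)
    rw [Finset.card_univ, Fintype.card_fin] at h4
    have h5 : (Finset.univ.filter fun i : Fin D => j < jj i) =
        Finset.univ.filter fun i : Fin D => ¬ jj i ≤ j := by
      ext i
      simp
    rw [h5]
    omega
  have h2 : ∑ j ∈ Finset.range K, (D - (Finset.univ.filter fun i => jj i ≤ j).card) <
      ∑ j ∈ Finset.range K, (D - min D (j * c + 1)) := by
    refine Finset.sum_lt_sum (fun a _ => Nat.sub_le_sub_left (hcard a) D) ⟨j, ?_, ?_⟩
    · rw [Finset.mem_range]
      omega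
    · have h4 : (Finset.univ.filter fun i : Fin D => jj i ≤ j).card ≤ D := by
        refine (Finset.card_filter_le _ _).trans ?_
        rw [Finset.card_univ, Fintype.card_fin]
      omega
  have h3 : ∑ j ∈ Finset.range K, (D - min D (j * c + 1)) =
      ∑ j ∈ Finset.range D, (D - 1 - c * j) := by
    have h5 : Finset.range D ⊆ Finset.range K := by
      intro a ha
      rw [Finset.mem_range] at ha ⊢
      omega
    rw [← Finset.sum_subset h5 (f := fun j => D - min D (j * c + 1))]
    · refine Finset.sum_congr rfl fun a _ => ?_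
      rw [mul_comm c a]
      omega
    · intro a _ ha
      rw [Finset.mem_range] at ha
      have h6 : a * 1 ≤ a * c := Nat.mul_le_mul_left a hc
      omega
  omega

end CEcAux

open CEcAux in
theorem ceC : S_CE := by
  classical
  intro N c D I q0 hc hcN hD hI hHom hlin hQP hq hq2
  obtain ⟨n, c', m0, F, iF, iA, y, z, hnc, hm0, hy, hyz, hnoe, hgen, hfr⟩ := uG1c N I hI hHom hlin
  obtain ⟨L, iL, iAL, G, hOk, hfr2⟩ := uG2 n c' m0 F y z hm0 hy hyz hnoe hgen
  have hf : ∀ m : ℕ, Module.finrank ℂ (G.V ^ m : Submodule ℂ L) = Module.finrank ℂ (gr I m) :=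
    fun m => (hfr2 m).trans (hfr m)
  have hfin : FiniteDimensional G.K L := (uAlgC n c' m0 L G hOk).1
  obtain ⟨hspan, hmono, h1, J, hJ⟩ := uExhC n c' m0 L G hOk
  obtain ⟨e, jj, he, hes, hjJ, hcard⟩ := uBas G.K L hfin
    (fun j : ℕ => ((G.V ^ j : Submodule ℂ L) : Set L)) J hmono ((hspan J).trans hJ)
  have hDpos : 1 ≤ Module.finrank G.K L := Module.finrank_pos
  obtain ⟨δ, hδ⟩ := uUpC n c' m0 L G hOk
  have hlow : ∀ m : ℕ, (∀ i, jj i ≤ m) →
      ∑ i, (n + (m - jj i)).choose n ≤ Module.finrank ℂ (gr I m) := by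
    intro m hm
    rw [← hf m]
    exact uLowC n c' m0 L G hOk _ e jj he hes m hm
  have hup : ∀ m : ℕ, Module.finrank ℂ (gr I m) ≤
      Module.finrank G.K L * (n + (m + δ)).choose n := by
    intro m
    rw [← hf m]
    exact hδ m
  obtain ⟨hn, hDD, hder⟩ := uNm N c n D (Module.finrank G.K L) δ
    (fun k => Module.finrank ℂ (gr I k)) q0 jj hcN hDpos hQP hq hD hlow hup
  have hcc : c' = c := by omega
  subst hcc
  have hcard2 : ∀ j : ℕ, min (Module.finrank G.K L) (j * c' + 1) ≤
      (Finset.univ.filter fun i => jj i ≤ j).card := by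
    intro j
    refine (uHGc n c' m0 L G hOk j).trans ?_
    have h2 := hcard j
    rw [hspan j] at h2
    exact h2
  have hq2K : (Polynomial.derivative q0).eval 1 = ((∑ j ∈ Finset.range (Module.finrank G.K L),
      (Module.finrank G.K L - 1 - c' * j) : ℕ) : ℤ) := by
    rw [hDD]
    exact hq2
  have hsum : ∑ j ∈ Finset.range (Module.finrank G.K L), (Module.finrank G.K L - 1 - c' * j) ≤
      ∑ i, jj i := by
    rw [hq2K] at hder
    exact_mod_cast hder
  have hsum2 := uSum (Module.finrank G.K L) c' J jj hc hjJ hcard2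
  have hcnt := counts (Module.finrank G.K L) c' J jj hc hjJ hcard2 hsum
  have hq2' : (Polynomial.derivative q0).eval 1 = ((∑ i, jj i : ℕ) : ℤ) := by
    rw [hq2K]
    exact congrArg (fun a : ℕ => (a : ℤ)) (le_antisymm hsum hsum2)
  suffices hmain : ∀ m : ℕ, Module.finrank ℂ (gr I m) =
      ∑ i, if jj i ≤ m then (N - c' + (m - jj i)).choose (N - c') else 0 by
    clear hq2' hsum2 hcard2 hsum hq2K hlow hcard
    subst hDD
    exact ⟨jj, hcnt, hmain⟩
  intro m
  have hspanT : Submodule.span G.K (Set.range e) = ⊤ :=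
    he.span_eq_top_of_card_eq_finrank' (by rw [Fintype.card_fin])
  have hupper := ceEq uFkC uMonC G hOk (by omega) e jj he hspanT hes (by
    intro m1
    obtain ⟨m, h3, h4, h5⟩ := nm2 N c' n (Module.finrank G.K L)
      (fun k => Module.finrank ℂ (gr I k)) q0 jj hcN hn hQP (by rw [hDD]; exact hq) hq2' m1
    exact ⟨m, h3, h4, by rw [hf m]; exact h5⟩) m
  rw [hf m] at hupper
  have hlower : ∑ i ∈ Finset.univ.filter (fun i => jj i ≤ m), (n + (m - jj i)).choose n ≤
      Module.finrank ℂ (gr I m) := by
    rw [← hf m]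
    let T := Finset.univ.filter (fun i => jj i ≤ m)
    have h4 := uLowC n c' m0 L G hOk T.card (fun i => e (T.equivFin.symm i))
      (fun i => jj (T.equivFin.symm i))
      (he.comp (fun i : Fin T.card => ((T.equivFin.symm i : T) : Fin (Module.finrank G.K L)))
        (fun a b hab => T.equivFin.symm.injective (Subtype.ext hab)))
      (fun i => hes _) m (fun i => (Finset.mem_filter.1 (T.equivFin.symm i).2).2)
    refine le_trans (le_of_eq ?_) h4
    rw [Equiv.sum_comp T.equivFin.symm (fun i : T => (n + (m - jj i)).choose n)]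
    exact (Finset.sum_coe_sort T fun i => (n + (m - jj i)).choose n).symm
  have heq := le_antisymm hupper hlower
  have h6 : N - c' = n := hn.symm
  rw [heq, h6, Finset.sum_filter]

end Pool.Agent.Lib.MP_776403_ag.SD.CE
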