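import Pool.Agent.Lib.MP_776403_ag.SD.UK.Spec2

/-!
# EQUALITY IN THE CASTELNUOVO BOUND: the homogeneous coordinate ring is free (helper5)

Continuation of `UK` (helper10).  `q0'(1) = ∑_(j < D) (D - 1 - c j)` implies that `S / I` is a free module over
`ℂ[l_0, …, l_n]` with generators of the degrees `jj i`, `#{i | jj i ≤ j} = min D (j c + 1)`, so the Hilbert function is
known, and there are such linear forms with coefficients in `ℂ`.

Statements with complete proofs in the docstrings.  `S_Xyz` is proved in `SD/CE/Xyz.lean` (theorem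
`SD.CE.tXyz`), other statements of the Spec files of `UK` and `CE` are taken as hypotheses.
-/

set_option autoImplicit false

open MvPolynomial

noncomputable section

namespace Pool.Agent.Lib.MP_776403_ag.SD.CE

open UK

/-! ## 1. Counting -/

/-- (Ga) GAP: equal first two coefficients.

PROOF.  `g m = ∑_i (if jj i ≤ m then binom (n + (m - jj i)) n else 0)`.  `p = ∑_i X^(jj i) ∈ ℤ[X]`:
`(1 - X)^(n+1) ps g = p` (`PowerSeries.mk_add_choose_mul_one_sub_pow_eq_one` times `X^(jj i)`), and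
`(1 - X)^(N+1) ps f = (1 - X)^c q0` gives `(1 - X)^(n+1) ps f = q0` (`N + 1 = n + 1 + c`, cancel).  `q0 - p` has the value
`D - D = 0` and the derivative `q0'(1) - ∑ jj i = 0` at `1`, so `q0 - p = (1 - X)^2 r`
(`Polynomial.one_lt_rootMultiplicity_iff_isRoot`, or divide twice by `X - C 1`).  So
`(1 - X)^(n-1) (ps f - ps g) = r` (`n ≥ 1`; cancel `(1 - X)^2`).  `n = 1`: `f m - g m` is the coefficient `m` of `r`, `0` for
large `m`.  `n ≥ 2`: `pc1 (n - 2)` (`M/PC.lean`): `Gw (n - 2)`, so `|f m - g m| ≤ C (m + 1)^(n-2)` for large `m`, `C ≥ 0`; with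
`m = m1 + d`: `(m + 1)^(n-2) ≤ (m1 + 1)^(n-2) (d + 1)^(n-2)`, and `S_NBin` (`nBin`, `p = n - 1`):
`C' (d + 1)^(n-2) < binom (d + (n-1)) (n-1)` for large `d`.  For `m ≥ jj i` for all `i` (large `d`) the conditions in `g m`
hold. -/
def S_Ga : Prop :=
  ∀ (N c n D : ℕ) (f : ℕ → ℕ) (q0 : Polynomial ℤ) (jj : Fin D → ℕ), n + c = N → 1 ≤ n →
    QP N c f q0 → q0.eval 1 = (D : ℤ) →
    (Polynomial.derivative q0).eval 1 = ((∑ i, jj i : ℕ) : ℤ) → ∀ m1 : ℕ,
    ∃ d : ℕ, (∀ i, jj i ≤ m1 + d) ∧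
      f (m1 + d) < ∑ i, (n + (m1 + d - jj i)).choose n + (n - 1 + d).choose (n - 1)

/-- (Eq) EQUALITY IN `UK.S_Sum`.

PROOF.  `∑_i jj i = ∑_(j < J) #{i | j < jj i}` (as in `UK.S_Sum`), `#{i | j < jj i} = D - #{i | jj i ≤ j} ≤
D - min D (j c + 1) = D - 1 - c j` (truncated) for every `j`, and `∑_(j < J) (D - 1 - c j) ≤ ∑_(j < D) (D - 1 - c j)` (the terms with
`j ≥ D` are `0`; if `J < D` the right side has more terms).  As the sums are equal, all inequalities for `j < J` are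
equalities, and `D - 1 - c j = 0` for `J ≤ j < D`.  For `j < J`: `#{i | jj i ≤ j} = min D (j c + 1)`.  For `j ≥ J`: `#{…} = D`
(`jj i ≤ J ≤ j`), and `D ≤ j c + 1` (for `j < D` as `D - 1 - c j = 0`; for `j ≥ D` as `c ≥ 1`). -/
def S_Eq : Prop :=
  ∀ (D c J : ℕ) (jj : Fin D → ℕ), 1 ≤ c → (∀ i, jj i ≤ J) →
    (∀ j : ℕ, min D (j * c + 1) ≤ (Finset.univ.filter fun i => jj i ≤ j).card) →
    ∑ j ∈ Finset.range D, (D - 1 - c * j) ≤ ∑ i, jj i →
    ∀ j : ℕ, (Finset.univ.filter fun i => jj i ≤ j).card = min D (j * c + 1)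

/-- (Rf) REDUCED FRACTIONS in `K = ℂ(t)(l)`.

PROOF.  `K = ℂ(t, l)` = `IntermediateField.adjoin` over `K0 = ℂ(t)` of the `l_i` (as subfields of `L`:
`IntermediateField.adjoin_le_iff` both ways), so `IntermediateField.mem_adjoin_range_iff` (over `K0`) gives
`x = aeval l r / aeval l s`, `aeval l s ≠ 0`.  (Or: from `UK`: elements of `K` are `ev p / ev q`, `ev p = aeval l p'`, `p'` the
polynomial in the `U_i` with the coefficients `aeval t (coefficients) ∈ K0`.)  `MvPolynomial (Fin n) K0` is a unique factorization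
domain (`K0` is a field): `UniqueFactorizationMonoid.exists_reduced_factors'` (or `exists_reduced_factors`): `r = c' a`,
`s = c' b`, `IsRelPrime a b`; cancel `aeval l c' ≠ 0`. -/
def S_Rf : Prop :=
  ∀ (n c m0 : ℕ) (L : Type) [Field L] [Algebra ℂ L] (G : Gen n c L), G.Ok m0 → ∀ x ∈ G.K,
    ∃ a b : MvPolynomial (Fin n) G.K0, IsRelPrime a b ∧ aeval G.l b ≠ 0 ∧
      x * aeval G.l b = aeval G.l a

/-- (Dd) The dimension of the polynomials `p` of degree `≤ d` with `p κ` of small degree.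

PROOF.  `W` = the set of the `p`.  `d = 0`: let `p ∈ W`, a constant, `p ≠ 0`: `b ∣ p a`, so `b ∣ a` and (coprime) `b` is a unit, a
constant `β ≠ 0`; `totalDegree (p a) = totalDegree a`, `q = β⁻¹ p a`, of degree `totalDegree a ≤ 0 + h`, against the hypothesis.  So
`W = ⊥`, and `Finset`/`finrank = 0 ≤ …` (`(n + 0).choose n - 1 = 0`).
`d ≥ 1`.  CASE A: `b` is not a unit.  `p a = b q` gives `b ∣ p` (`IsRelPrime.dvd_of_dvd_mul_right`), `p = b p'`,
`totalDegree p' ≤ d - 1` (`MvPolynomial.totalDegree_mul_of_isDomain`; a polynomial of total degree `0` is a constant, so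
`totalDegree b ≥ 1`).  CASE B: `b` is a unit: a constant `β`; `p a = β q`, and (if `p ≠ 0`) `totalDegree p + totalDegree a ≤ d + h`,
`totalDegree a > h`: `totalDegree p ≤ d - 1`.  In both cases `W` is contained in the image of `restrictTotalDegree (Fin n) K (d - 1)`
under an injective linear map (`p' ↦ b p'`, resp. the identity), so `finrank W ≤ binom (n + (d - 1)) n`
(`finrank` of `restrictTotalDegree`: `UK.S_Mon` (1) and the basis of monomials `MvPolynomial.basisRestrictTotalDegree…`, see the proof of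
`UK.S_Low`).  `binom (n + (d - 1)) n + binom (n - 1 + d) (n - 1) = binom (n + d) n` (Pascal; `n ≥ 1`). -/
def S_Dd : Prop :=
  ∀ (n : ℕ) (K : Type) [Field K] (a b : MvPolynomial (Fin n) K) (h d : ℕ), 1 ≤ n →
    IsRelPrime a b → b ≠ 0 → (IsUnit b → h < a.totalDegree) →
    ∀ W : Submodule K (MvPolynomial (Fin n) K),
    (∀ p ∈ W, p.totalDegree ≤ d ∧ ∃ q : MvPolynomial (Fin n) K, p * a = b * q ∧
      (q = 0 ∨ q.totalDegree ≤ d + h)) →
    Module.finrank K W + (n - 1 + d).choose (n - 1) ≤ (n + d).choose n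

/-- (Fr) FREENESS over `ℂ(t)[l]`.

PROOF.  `P = MvPolynomial (Fin n) K0`, `φ = aeval G.l : P → L`, injective (`UK.S_Mon` (2)).  Suppose that `v ∈ V0 ^ m1` is not of the
required form.  `e` is a basis of `L` over `K`: `v = ∑ κ_i e_i`, `κ_i ∈ K`, `κ_i φ(b_i) = φ(a_i)` (`S_Rf`).  If for all `i` `b_i` is a unit
`β_i` and (`a_i = 0` or `totalDegree a_i + jj i ≤ m1`) then `v = ∑ φ(β_i⁻¹ a_i) e_i` is of the required form.  So there is `i₀` with:
`b_(i₀)` is not a unit, or `a_(i₀) ≠ 0` and `totalDegree a_(i₀) + jj i₀ > m1`.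
Take `d` from the last hypothesis for `m1`.  `P_d = restrictTotalDegree (Fin n) K0 d`, `λ : P_d → L`, `p ↦ φ(p) v`: values in
`V0 ^ (m1 + d)` (`φ(p) ∈ V0 ^ d`: `1, l_i ∈ V0`; `V0 ^ d * V0 ^ m1 = V0 ^ (m1 + d)`).  `M` = the `K0`-span of the `l^α e_i`,
`|α| ≤ m1 + d - jj i`; they are independent and in `V0 ^ (m1 + d)`: `finrank M = ∑_i binom (n + (m1 + d - jj i)) n` (proof of `UK.S_Low`).
`W = λ⁻¹(M)`: `φ(p) v = ∑ φ(q_i) e_i`, `totalDegree q_i ≤ m1 + d - jj i`; so `φ(p) κ_i = φ(q_i)`, `p a_i = b_i q_i` for all `i`, in particular for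
`i₀`.  `S_Dd` with `a = a_(i₀)`, `b = b_(i₀)`, and `h = m1 - jj i₀` if `jj i₀ ≤ m1`: `finrank W ≤ binom (n + d) n - binom (n - 1 + d) (n - 1)`.  If
`jj i₀ > m1` (then `κ_(i₀) ≠ 0` in all cases): `q = q_(i₀)` has `totalDegree ≤ d + m1 - jj i₀ < d`: use `S_Dd` with `h = 0` if
`b_(i₀)` is not a unit or `totalDegree a_(i₀) ≥ 1`; otherwise `κ_(i₀)` is a nonzero constant of `K0` and `p` itself has
`totalDegree ≤ d - 1` (or `p = 0`): `finrank W ≤ binom (n + (d - 1)) n` for `d ≥ 1`, `W = ⊥` for `d = 0`.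
So `finrank (V0 ^ (m1 + d)) ≥ finrank (M + λ(P_d)) = finrank M + finrank P_d - finrank W ≥ ∑_i binom (…) n + binom (n - 1 + d) (n - 1)`
(`λ` is injective if `v ≠ 0`; `λ(P_d) ∩ M = λ(W)`), and `finrank (V0 ^ m) = finrank_ℂ (V ^ m)` (`UK.S_Fk`): contradiction to the choice
of `d`.
SECOND CLAIM: by the first claim `V0 ^ m` is the `K0`-span of the `l^α e_i`, `|α| + jj i ≤ m`, which are `K0`-independent (proof of
`UK.S_Low`) and in `V0 ^ m`: count (`UK.S_Mon` (1)). -/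
def S_Fr : Prop :=
  ∀ (n c m0 : ℕ) (L : Type) [Field L] [Algebra ℂ L] (G : Gen n c L), G.Ok m0 → 1 ≤ n →
    ∀ (e : Fin (Module.finrank G.K L) → L) (jj : Fin (Module.finrank G.K L) → ℕ),
    LinearIndependent G.K e → (∀ i, e i ∈ G.V ^ (jj i)) →
    (∀ m1 : ℕ, ∃ d : ℕ, (∀ i, jj i ≤ m1 + d) ∧
      Module.finrank ℂ (G.V ^ (m1 + d) : Submodule ℂ L) <
        ∑ i, (n + (m1 + d - jj i)).choose n + (n - 1 + d).choose (n - 1)) →
    (∀ m : ℕ, ∀ v ∈ G.V0 ^ m, ∃ a : Fin (Module.finrank G.K L) → MvPolynomial (Fin n) G.K0,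
      v = ∑ i, aeval G.l (a i) * e i ∧ ∀ i, a i ≠ 0 → (a i).totalDegree + jj i ≤ m) ∧
    ∀ m : ℕ, Module.finrank ℂ (G.V ^ m : Submodule ℂ L) =
      ∑ i, if jj i ≤ m then (n + (m - jj i)).choose n else 0

/-- (CE) THE HILBERT FUNCTION in the case of equality.

PROOF.  As `UK.S_Cas`: `UK.S_G1`, `UK.S_G2` (`n + c' = N`), `G.Ok m0`, `finrank (V ^ m) = finrank (gr I m)`; `UK.S_Alg`; `UK.S_Bas` with
`s j = V ^ j`, `J` from `UK.S_Exh`: `e`, `jj`; `UK.S_Low`, `UK.S_Up`, `UK.S_Nm`: `n = N - c`, so `c' = c`, `finrank K L = D`,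
`q0'(1) ≤ ∑ jj i`; `UK.S_Sum`: `∑ jj i ≤ ∑_(j < D) (D - 1 - c j) = q0'(1)`.  So `∑ jj i = q0'(1)`.  `S_Eq`.  `S_Ga` (`f m = finrank (gr I m)`,
`n ≥ 1` as `c + 1 ≤ N`), `S_Fr`. -/
def S_CE : Prop :=
  ∀ (N c D : ℕ) (I : Ideal (Sx N)) (q0 : Polynomial ℤ), 1 ≤ c → c + 1 ≤ N → 1 ≤ D → I.IsPrime →
    IsHom I → (∀ F ∈ I, F.IsHomogeneous 1 → F = 0) →
    QP N c (fun k => Module.finrank ℂ (gr I k)) q0 → q0.eval 1 = (D : ℤ) →
    (Polynomial.derivative q0).eval 1 = ((∑ j ∈ Finset.range D, (D - 1 - c * j) : ℕ) : ℤ) →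
    ∃ jj : Fin D → ℕ,
      (∀ j : ℕ, (Finset.univ.filter fun i => jj i ≤ j).card = min D (j * c + 1)) ∧
      ∀ m : ℕ, Module.finrank ℂ (gr I m) =
        ∑ i, if jj i ≤ m then (N - c + (m - jj i)).choose (N - c) else 0

/-! ## 2. Special linear forms over `ℂ` -/

/-- The monomials `l^α e_i`, `|α| + jj i ≤ m`, for special values `t0` of the parameters. -/
abbrev Ms {D : ℕ} (n : ℕ) (jj : Fin D → ℕ) (m : ℕ) : Type :=
  {p : Fin D × (Fin n →₀ ℕ) // p.2.degree + jj p.1 ≤ m}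

/-- `l_i(t0) = y_i + ∑_j t0_ij z_j`. -/
def l0 {n c : ℕ} {L : Type} [Field L] [Algebra ℂ L] (G : Gen n c L) (t0 : Fin n × Fin c → ℂ)
    (i : Fin n) : L := G.y i + ∑ j, algebraMap ℂ L (t0 (i, j)) * G.z j

/-- (Sp) SPECIALIZATION.

PROOF.  Let `M ≥` all `jj i`.  For `m ≤ M + 1` let `v_b` be a `ℂ`-basis of `V ^ m` (in `A`).  `l(t)^α e_i` (`|α| + jj i ≤ m`) is
`∑_b C_(p b)(t) v_b`, `C_(p b) ∈ MvPolynomial (Fin n × Fin c) ℂ`: expand the product `∏ (y_i + ∑ t_ij z_j)^(α_i) e_i` in monomials in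
`t`; the coefficients are products of at most `|α|` of the `y_i`, `z_j` and `e_i`, so in `V ^ m` (`1 ∈ V`); by induction on `|α|`: the
set of the sums `∑ f_b(t) v_b`, `v_b ∈ V ^ m`, `f_b ∈ ℂ[T]`, is mapped by `l_i` to the same for `m + 1`, and compatible with
specialization `t ↦ t0`: formally, work in `MvPolynomial (Fin n × Fin c) L`, with `λ_i = C y_i + ∑_j X_ij C z_j`; `eval t` and
`eval (algebraMap t0)` of `λ^α C e_i` are `l^α e_i` and `l0^α e_i`; all coefficients of `λ^α C e_i` are in `V ^ m`.)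
The number of the `(i, α)` is `∑_i [jj i ≤ m] binom (n + (m - jj i)) n = finrank V ^ m` (`UK.S_Mon` (1)): the matrix `C` is square (after
`Fintype.equiv`); the `l^α e_i` are independent over `K0` (proof of `UK.S_Low`: `e` independent over `K`, `l` over `K0`), so
`det C(t) ≠ 0` (a relation between the rows with coefficients in `K0`; `Matrix.exists_vecMul_eq_zero_iff`), so the polynomial
`det C ≠ 0`.  The product of these polynomials for `m ≤ M + 1` is `≠ 0`: there is `t0` where it does not vanish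
(`MvPolynomial.funext`, `ℂ` is infinite).  So for `m ≤ M + 1` the `l0^α e_i` are a `ℂ`-basis of `V ^ m`.
For `m ≥ M + 1` by induction: `V ^ m` is spanned by the `l0^α e_i`, `|α| + jj i ≤ m`.  `Y' = span (1, l0)`.  For `m = M + 1` and every
basis element with `|α| ≥ 1` `l0^α = l0_k l0^α'`; with `|α| = 0`: `jj i ≤ M`: so `V ^ (M + 1) ≤ Y' * V ^ M` (the elements with
`|α'| + jj i ≤ M` are in `V ^ M`); then `V ^ (m + 1) = V * V ^ m ≤ V * (Y' * V ^ (m-1)) ≤ Y' * V ^ m` for `m ≥ M + 1` (induction: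
`V ^ m ≤ Y' * V ^ (m - 1)`), and `Y' *` (span of the `l0^α e_i`, `|α| + jj i ≤ m`) is spanned by those with `m + 1`.  Number `=` dimension:
independent. -/
def S_Sp : Prop :=
  ∀ (n c m0 : ℕ) (L : Type) [Field L] [Algebra ℂ L] (G : Gen n c L), G.Ok m0 →
    ∀ (D : ℕ) (e : Fin D → L) (jj : Fin D → ℕ), LinearIndependent G.K e →
    (∀ i, e i ∈ G.V ^ (jj i)) →
    (∀ m : ℕ, Module.finrank ℂ (G.V ^ m : Submodule ℂ L) =
      ∑ i, if jj i ≤ m then (n + (m - jj i)).choose n else 0) →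
    ∃ t0 : Fin n × Fin c → ℂ, ∀ m : ℕ,
      (LinearIndependent ℂ fun p : Ms n jj m => (∏ i, l0 G t0 i ^ p.1.2 i) * e p.1.1) ∧
      Submodule.span ℂ (Set.range fun p : Ms n jj m => (∏ i, l0 G t0 i ^ p.1.2 i) * e p.1.1) =
        G.V ^ m

/-- (G1p) `UK.S_G1` and `UK.S_G2` with the dehomogenization `π : S → L`.

PROOF.  `UK.S_GA`: `w`, `u`; the proofs of `UK.S_G1` and `UK.S_G2` (`UK/G1.lean`, `UK/G2.lean`).  `π : S → L`: in the basis `w`, `u` of the
linear forms (`X_j` is a combination of the `w`, `u`) `π = aeval`, `X_j ↦ X_j / w_0` computed in the fraction field of `S / I`, so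
`π F = F / w_0^m` for a form `F` of degree `m`; `π F = 0` iff `F ∈ I`.  `π w_0 = 1`, `π w_(i+1) = y_i`, `π u_j = z_j`.
`V ^ m` is the image of the forms of degree `m`. -/
def S_G1p : Prop :=
  ∀ (N : ℕ) (I : Ideal (Sx N)), I.IsPrime → IsHom I → (∀ F ∈ I, F.IsHomogeneous 1 → F = 0) →
    ∃ (n c m0 : ℕ) (w : Fin (n + 1) → Sx N) (u : Fin c → Sx N) (L : Type) (_ : Field L)
      (_ : Algebra ℂ L) (G : Gen n c L) (π : Sx N →ₐ[ℂ] L), n + c = N ∧ G.Ok m0 ∧
      (∀ i, (w i).IsHomogeneous 1) ∧ (∀ j, (u j).IsHomogeneous 1) ∧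
      LinearIndependent ℂ (Sum.elim w u) ∧
      (∀ F : Sx N, F.IsHomogeneous 1 → F ∈ Submodule.span ℂ (Set.range (Sum.elim w u))) ∧
      π (w 0) = 1 ∧ (∀ i : Fin n, π (w i.succ) = G.y i) ∧ (∀ j, π (u j) = G.z j) ∧
      (∀ (m : ℕ) (F : Sx N), F.IsHomogeneous m → (π F = 0 ↔ F ∈ I)) ∧
      ∀ m : ℕ, (homogeneousSubmodule (Fin (N + 1)) ℂ m).map π.toLinearMap = G.V ^ m ∧
        Module.finrank ℂ (G.V ^ m : Submodule ℂ L) = Module.finrank ℂ (gr I m)

/-- `S / I` is free over `ℂ[w_0, …, w_n]` with the basis `E i`, of degrees `jj i`. -/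
structure Free {N : ℕ} (I : Ideal (Sx N)) {n D : ℕ} (w : Fin (n + 1) → Sx N) (E : Fin D → Sx N)
    (jj : Fin D → ℕ) : Prop where
  lin : ∀ i, (w i).IsHomogeneous 1
  hom : ∀ i, (E i).IsHomogeneous (jj i)
  gen : ∀ (m : ℕ) (F : Sx N), F.IsHomogeneous m → ∃ a : Fin D → MvPolynomial (Fin (n + 1)) ℂ,
    (∀ i, jj i ≤ m → (a i).IsHomogeneous (m - jj i)) ∧ (∀ i, m < jj i → a i = 0) ∧
    F - ∑ i, aeval w (a i) * E i ∈ I
  unique : ∀ a : Fin D → MvPolynomial (Fin (n + 1)) ℂ, ∑ i, aeval w (a i) * E i ∈ I → a = 0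

/-- (CF) FREENESS OVER `ℂ[w]`.

PROOF.  `S_G1p`; as in `S_CE` (`n = N - c`): `e`, `jj`, `finrank K L = D`, equality, `S_Ga`, `S_Fr`: the Hilbert function; `S_Sp`: `t0`.
`w'_0 = w_0`, `w'_(i+1) = w_(i+1) + ∑_j t0_ij u_j` (linear forms), `π w'_0 = 1`, `π w'_(i+1) = l0_i`.  `e_i = π E_i`, `E_i` a form of degree `jj i`.
gen: `F` a form of degree `m`: `π F ∈ V ^ m`, `π F = ∑_(i, α) c_(i,α) l0^α e_i`; `a_i = ∑_α c_(i,α) X_0^(m - jj i - |α|) X^α` (variables
`1, …, n` for `α`), homogeneous of degree `m - jj i`; `π (F - ∑ aeval w' (a_i) E_i) = 0`, a form of degree `m`: in `I`.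
unique: `∑ aeval w' (a_i) E_i ∈ I`; components: we may take all `a_i` homogeneous of degree `m - jj i` (`0` if `jj i > m`; `I` is homogeneous,
the component `m` of the sum is the sum with the components of degree `m - jj i` of the `a_i`).  `π`: `∑ a_i(1, l0) e_i = 0`, an expression
in the independent `l0^α e_i`, `|α| ≤ m - jj i`: all coefficients of `a_i` are `0`.
(Ex): a linear form `F` is `∑ b_i w'_i + ∑_j c_j u_j`; the `u_j` can be taken for the generators of degree `1`: the classes of the `w'_i`, `u_j`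
are a basis of `gr I 1` (`S_G1p`, nondegenerate).  By `S_CE`'s count exactly one `jj i` is `0` and `min D (c + 1) - 1` are `≤ 1`; for
`D ≥ c + 1` these are `c`. -/
def S_CF : Prop :=
  ∀ (N c D : ℕ) (I : Ideal (Sx N)) (q0 : Polynomial ℤ), 1 ≤ c → c + 1 ≤ N → 1 ≤ D → I.IsPrime →
    IsHom I → (∀ F ∈ I, F.IsHomogeneous 1 → F = 0) →
    QP N c (fun k => Module.finrank ℂ (gr I k)) q0 → q0.eval 1 = (D : ℤ) →
    (Polynomial.derivative q0).eval 1 = ((∑ j ∈ Finset.range D, (D - 1 - c * j) : ℕ) : ℤ) →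
    ∃ (n : ℕ) (w : Fin (n + 1) → Sx N) (E : Fin D → Sx N) (jj : Fin D → ℕ), n + c = N ∧
      Free I w E jj ∧ LinearIndependent ℂ w ∧
      (∀ j : ℕ, (Finset.univ.filter fun i => jj i ≤ j).card = min D (j * c + 1)) ∧
      ∀ m : ℕ, Module.finrank ℂ (gr I m) =
        ∑ i, if jj i ≤ m then (n + (m - jj i)).choose n else 0

end Pool.Agent.Lib.MP_776403_ag.SD.CE
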