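import Pool.Agent.Lib.MP_776403_ag.SD.CE.Spec

/-!
# The Hilbert function in the case of equality in the Castelnuovo bound
-/

set_option autoImplicit false

open MvPolynomial

noncomputable section

namespace Pool.Agent.Lib.MP_776403_ag.SD.CE

theorem tCE : UK.S_G1 → UK.S_G2 → UK.S_Alg → UK.S_Bas → UK.S_Exh → UK.S_Low → UK.S_Up → UK.S_Nm →
    UK.S_Sum → UK.S_HG → S_Ga → S_Eq → S_Fr → S_CE := by
  intro hG1 hG2 hAlg hBas hExh hLow hUp hNm hSum hHG hGa hEq hFr N c D I q0 hc hcN hD hI hHom hlin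
    hQP hq hq1
  obtain ⟨n, c', m0, F, iF, iA, y, z, hnc, hm0, hy, hyz, hnoe, hgen, hfr⟩ := hG1 N I hI hHom hlin
  obtain ⟨L, iL, iAL, G, hOk, hfr2⟩ := hG2 n c' m0 F y z hm0 hy hyz hnoe hgen
  have hf : ∀ m : ℕ, Module.finrank ℂ (G.V ^ m : Submodule ℂ L) = Module.finrank ℂ (gr I m) :=
    fun m => (hfr2 m).trans (hfr m)
  have hfin : FiniteDimensional G.K L := (hAlg n c' m0 L G hOk).1
  obtain ⟨hspan, hmono, h1, J, hJ⟩ := hExh n c' m0 L G hOk
  obtain ⟨e, jj, he, hes, hjJ, hcard⟩ := hBas G.K L hfin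
    (fun j : ℕ => ((G.V ^ j : Submodule ℂ L) : Set L)) J hmono ((hspan J).trans hJ)
  have hDpos : 1 ≤ Module.finrank G.K L := Module.finrank_pos
  obtain ⟨δ, hδ⟩ := hUp n c' m0 L G hOk
  have hlow : ∀ m : ℕ, (∀ i, jj i ≤ m) →
      ∑ i, (n + (m - jj i)).choose n ≤ Module.finrank ℂ (gr I m) := by
    intro m hm
    rw [← hf m]
    exact hLow n c' m0 L G hOk _ e jj he hes m hm
  have hup : ∀ m : ℕ, Module.finrank ℂ (gr I m) ≤
      Module.finrank G.K L * (n + (m + δ)).choose n := by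
    intro m
    rw [← hf m]
    exact hδ m
  obtain ⟨hn, hDD, hder⟩ := hNm N c n D (Module.finrank G.K L) δ
    (fun k => Module.finrank ℂ (gr I k)) q0 jj hcN hDpos hQP hq hD hlow hup
  have hcc : c' = c := by omega
  have hn1 : 1 ≤ n := by omega
  subst hcc
  subst hDD
  have hge : ∀ j : ℕ, min (Module.finrank G.K L) (j * c' + 1) ≤
      (Finset.univ.filter fun i => jj i ≤ j).card := fun j => by
    refine (hHG n c' m0 L G hOk j).trans ?_
    have h2 := hcard j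
    rw [hspan j] at h2
    exact h2
  have hs := hSum (Module.finrank G.K L) c' J jj hc hjJ hge
  rw [hq1] at hder
  have hs2 : ∑ j ∈ Finset.range (Module.finrank G.K L), (Module.finrank G.K L - 1 - c' * j) ≤
      ∑ i, jj i := by exact_mod_cast hder
  have hga := hGa N c' n (Module.finrank G.K L) (fun k => Module.finrank ℂ (gr I k)) q0 jj hnc hn1
    hQP hq (by rw [hq1, le_antisymm hs2 hs])
  obtain ⟨_, hF⟩ := hFr n c' m0 L G hOk hn1 e jj he hes (fun m1 => by
    obtain ⟨d, hd1, hd2⟩ := hga m1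
    exact ⟨d, hd1, by rw [hf]; exact hd2⟩)
  refine ⟨jj, hEq _ c' J jj hc hjJ hge hs2, fun m => ?_⟩
  rw [← hf m, hF m, ← hn]

end Pool.Agent.Lib.MP_776403_ag.SD.CE
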