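import Pool.Agent.Lib.MP_776403_ag.SD.CE.Spec

/-!
# Proof of `S_CF`: freeness over `ℂ[w]` with linear forms over `ℂ`
-/

set_option autoImplicit false

open MvPolynomial

noncomputable section

namespace Pool.Agent.Lib.MP_776403_ag.SD.CE

open UK

namespace CFAux

lemma degree_tail {n : ℕ} (β : Fin (n + 1) →₀ ℕ) : β.degree = β 0 + β.tail.degree := by
  rw [Finsupp.degree_eq_sum, Finsupp.degree_eq_sum, Fin.sum_univ_succ]
  simp only [Finsupp.tail_apply]

lemma degree_cons {n : ℕ} (k : ℕ) (α : Fin n →₀ ℕ) : (Finsupp.cons k α).degree = k + α.degree := by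
  rw [degree_tail, Finsupp.cons_zero, Finsupp.tail_cons]

lemma hc_mul {N n : ℕ} (w : Fin (n + 1) → Sx N) (hw : ∀ i, (w i).IsHomogeneous 1) (E : Sx N)
    (j : ℕ) (hE : E.IsHomogeneous j) (a : MvPolynomial (Fin (n + 1)) ℂ) (m : ℕ) :
    homogeneousComponent m (aeval w a * E) =
      if j ≤ m then aeval w (homogeneousComponent (m - j) a) * E else 0 := by
  induction a using MvPolynomial.induction_on' with
  | monomial d r =>
    have h1 : (monomial d r : MvPolynomial (Fin (n + 1)) ℂ).IsHomogeneous d.degree :=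
      isHomogeneous_monomial r rfl
    have h2 : (aeval w (monomial d r : MvPolynomial (Fin (n + 1)) ℂ)).IsHomogeneous d.degree := by
      simpa using h1.aeval w hw
    rw [homogeneousComponent_of_mem (h2.mul hE), homogeneousComponent_of_mem h1]
    split_ifs with h3 h4 h5 h5
    · rfl
    · omega
    · omega
    · omega
    · simp
    · rfl
  | add p q hp hq =>
    rw [map_add, add_mul, map_add, hp, hq, map_add, map_add, add_mul]
    split_ifs
    · rfl
    · simp

lemma aeval_mono {n : ℕ} {L : Type} [Field L] [Algebra ℂ L] (v : Fin (n + 1) → L) (hv : v 0 = 1)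
    (β : Fin (n + 1) →₀ ℕ) (r : ℂ) :
    aeval v (monomial β r : MvPolynomial (Fin (n + 1)) ℂ) =
      r • ∏ i : Fin n, v i.succ ^ β.tail i := by
  rw [aeval_monomial, Finsupp.prod_fintype _ _ (fun i => pow_zero _), Fin.prod_univ_succ, hv,
    one_pow, one_mul, Algebra.smul_def]
  rfl

lemma uniq {n D : ℕ} {L : Type} [Field L] [Algebra ℂ L] (v : Fin (n + 1) → L) (hv : v 0 = 1)
    (e : Fin D → L) (jj : Fin D → ℕ) (m : ℕ)
    (hind : LinearIndependent ℂ fun p : Ms n jj m => (∏ i : Fin n, v i.succ ^ p.1.2 i) * e p.1.1)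
    (b : Fin D → MvPolynomial (Fin (n + 1)) ℂ)
    (hb : ∀ i, ∀ β ∈ (b i).support, β.degree + jj i = m)
    (h0 : ∑ i, aeval v (b i) * e i = 0) : b = 0 := by
  let T : Type := Σ i : Fin D, {β : Fin (n + 1) →₀ ℕ // β ∈ (b i).support}
  let f : T → Ms n jj m := fun x => ⟨(x.1, x.2.1.tail), by
    have h1 := hb x.1 x.2.1 x.2.2
    have h2 := degree_tail x.2.1
    show (x.2.1.tail).degree + jj x.1 ≤ m
    omega⟩
  have hf : Function.Injective f := by
    rintro ⟨i, β, hβ⟩ ⟨i', β', hβ'⟩ h
    have h1 : (i, β.tail) = (i', β'.tail) := congrArg Subtype.val h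
    have h2 : i = i' := congrArg Prod.fst h1
    subst h2
    have h3 : β.tail = β'.tail := congrArg Prod.snd h1
    have h4 : β 0 = β' 0 := by
      have h5 := hb i β hβ
      have h6 := hb i β' hβ'
      have h7 := degree_tail β
      have h8 := degree_tail β'
      rw [h3] at h7
      omega
    have h9 : β = β' := by
      rw [← Finsupp.cons_tail β, ← Finsupp.cons_tail β', h3, h4]
    subst h9
    rfl
  have hli := Fintype.linearIndependent_iff.1 (hind.comp f hf)
    (fun x : T => coeff x.2.1 (b x.1)) (by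
      rw [← h0]
      rw [Fintype.sum_sigma]
      refine Finset.sum_congr rfl fun i _ => ?_
      conv_rhs => rw [← support_sum_monomial_coeff (b i)]
      rw [map_sum, Finset.sum_mul]
      rw [← Finset.sum_coe_sort (b i).support
        (fun β => aeval v (monomial β (coeff β (b i)) : MvPolynomial (Fin (n + 1)) ℂ) * e i)]
      refine Finset.sum_congr rfl fun β _ => ?_
      rw [aeval_mono v hv, smul_mul_assoc]
      rfl)
  funext i
  by_contra hne
  obtain ⟨β, hβ⟩ : ∃ β, coeff β (b i) ≠ 0 := by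
    by_contra hcon
    push Not at hcon
    exact hne (MvPolynomial.ext _ _ fun β => by rw [hcon β]; simp)
  exact hβ (hli ⟨i, β, mem_support_iff.2 hβ⟩)

lemma gen {n D : ℕ} {L : Type} [Field L] [Algebra ℂ L] (v : Fin (n + 1) → L) (hv : v 0 = 1)
    (e : Fin D → L) (jj : Fin D → ℕ) (m : ℕ) (x : L)
    (hx : x ∈ Submodule.span ℂ (Set.range fun p : Ms n jj m =>
      (∏ i : Fin n, v i.succ ^ p.1.2 i) * e p.1.1)) :
    ∃ a : Fin D → MvPolynomial (Fin (n + 1)) ℂ, (∀ i, jj i ≤ m → (a i).IsHomogeneous (m - jj i)) ∧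
      (∀ i, m < jj i → a i = 0) ∧ ∑ i, aeval v (a i) * e i = x := by
  induction hx using Submodule.span_induction with
  | mem x hx =>
    obtain ⟨⟨⟨i0, α⟩, hp⟩, rfl⟩ := hx
    have hp' : α.degree + jj i0 ≤ m := hp
    refine ⟨fun i => if i = i0 then monomial (Finsupp.cons (m - jj i0 - α.degree) α) 1 else 0,
      fun i hi => ?_, fun i hi => ?_, ?_⟩
    · beta_reduce
      by_cases h : i = i0
      · subst h
        rw [if_pos rfl]
        refine isHomogeneous_monomial _ ?_
        rw [degree_cons]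
        omega
      · rw [if_neg h]
        exact isHomogeneous_zero _ _ _
    · beta_reduce
      rw [if_neg]
      rintro rfl
      omega
    · beta_reduce
      rw [Finset.sum_eq_single i0]
      · rw [if_pos rfl, aeval_mono v hv, one_smul, Finsupp.tail_cons]
      · intro i _ hi
        rw [if_neg hi, map_zero, zero_mul]
      · intro h
        exact absurd (Finset.mem_univ _) h
  | zero =>
    exact ⟨fun _ => 0, fun i _ => isHomogeneous_zero _ _ _, fun _ _ => rfl, by simp⟩
  | add x y _ _ hx hy =>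
    obtain ⟨a, ha1, ha2, ha3⟩ := hx
    obtain ⟨b, hb1, hb2, hb3⟩ := hy
    refine ⟨fun i => a i + b i, fun i hi => (ha1 i hi).add (hb1 i hi), fun i hi => ?_, ?_⟩
    · show a i + b i = 0
      rw [ha2 i hi, hb2 i hi, add_zero]
    · rw [← ha3, ← hb3, ← Finset.sum_add_distrib]
      exact Finset.sum_congr rfl fun i _ => by rw [map_add, add_mul]
  | smul r x _ hx =>
    obtain ⟨a, ha1, ha2, ha3⟩ := hx
    refine ⟨fun i => r • a i, fun i hi => ?_, fun i hi => ?_, ?_⟩
    · exact (homogeneousSubmodule (Fin (n + 1)) ℂ (m - jj i)).smul_mem r (ha1 i hi)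
    · show r • a i = 0
      rw [ha2 i hi, smul_zero]
    · rw [← ha3, Finset.smul_sum]
      exact Finset.sum_congr rfl fun i _ => by rw [map_smul, smul_mul_assoc]

end CFAux

open CFAux

theorem tCF : S_G1p → UK.S_Alg → UK.S_Bas → UK.S_Exh → UK.S_Low → UK.S_Up → UK.S_Nm → UK.S_Sum →
    UK.S_HG → S_Ga → S_Eq → S_Fr → S_Sp → S_CF := by
  intro hG1p hAlg hBas hExh hLow hUp hNm hSum hHG hGa hEq hFr hSp N c D I q0 hc hcN hD hI hHom hlin
    hQP hq hder0
  obtain ⟨n, c', m0, w, u, L, iL, iAL, G, π, hnc, hOk, hw, hu, hwu, hwspan, hπw0, hπw, hπu, hπI,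
    hπV⟩ := hG1p N I hI hHom hlin
  have hf : ∀ m : ℕ, Module.finrank ℂ (G.V ^ m : Submodule ℂ L) = Module.finrank ℂ (gr I m) :=
    fun m => (hπV m).2
  have hfin : FiniteDimensional G.K L := (hAlg n c' m0 L G hOk).1
  obtain ⟨hspan, hmono, h1, J, hJ⟩ := hExh n c' m0 L G hOk
  obtain ⟨e, jj, he, hes, hjJ, hcard⟩ := hBas G.K L hfin
    (fun j : ℕ => ((G.V ^ j : Submodule ℂ L) : Set L)) J hmono ((hspan J).trans hJ)
  have hDpos : 1 ≤ Module.finrank G.K L := Module.finrank_pos
  obtain ⟨δ, hδ⟩ := hUp n c' m0 L G hOk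
  have hlow : ∀ m : ℕ, (∀ i, jj i ≤ m) →
      ∑ i, (n + (m - jj i)).choose n ≤ Module.finrank ℂ (gr I m) := by
    intro m hm
    rw [← hf m]
    exact hLow n c' m0 L G hOk _ e jj he hes m hm
  have hup : ∀ m : ℕ, Module.finrank ℂ (gr I m) ≤
      Module.finrank G.K L * (n + (m + δ)).choose n := by
    intro m
    rw [← hf m]
    exact hδ m
  obtain ⟨hn, hDD, hder⟩ := hNm N c n D (Module.finrank G.K L) δ
    (fun k => Module.finrank ℂ (gr I k)) q0 jj hcN hDpos hQP hq hD hlow hup
  have hcc : c' = c := by omega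
  subst hcc
  have hmin : ∀ j : ℕ, min (Module.finrank G.K L) (j * c' + 1) ≤
      (Finset.univ.filter fun i => jj i ≤ j).card := fun j => by
    refine (hHG n c' m0 L G hOk j).trans ?_
    have h2 := hcard j
    rw [hspan j] at h2
    exact h2
  have hs := hSum (Module.finrank G.K L) c' J jj hc hjJ hmin
  have hn1 : 1 ≤ n := by omega
  subst hDD
  have hsum : ((∑ i, jj i : ℕ) : ℤ) = (Polynomial.derivative q0).eval 1 := by
    apply le_antisymm _ hder
    rw [hder0]
    exact_mod_cast hs
  have hsum' : ∑ j ∈ Finset.range (Module.finrank G.K L), (Module.finrank G.K L - 1 - c' * j) ≤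
      ∑ i, jj i := by
    have h3 := hsum.symm.le
    rw [hder0] at h3
    exact_mod_cast h3
  have hcount := hEq (Module.finrank G.K L) c' J jj hc hjJ hmin hsum'
  have hga := hGa N c' n (Module.finrank G.K L) (fun k => Module.finrank ℂ (gr I k)) q0 jj hnc hn1
    hQP hq hsum.symm
  obtain ⟨-, hfr⟩ := hFr n c' m0 L G hOk hn1 e jj he hes (fun m1 => by
    obtain ⟨d, hd1, hd2⟩ := hga m1
    refine ⟨d, hd1, ?_⟩
    rw [hf]
    exact hd2)
  obtain ⟨t0, ht0⟩ := hSp n c' m0 L G hOk _ e jj he hes hfr
  -- the linear forms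
  let w' : Fin (n + 1) → Sx N := Fin.cons (w 0) fun i => w i.succ + ∑ j, C (t0 (i, j)) * u j
  have hw'0 : w' 0 = w 0 := rfl
  have hw's : ∀ i : Fin n, w' i.succ = w i.succ + ∑ j, C (t0 (i, j)) * u j := fun i => by
    simp only [w', Fin.cons_succ]
  have hw' : ∀ i, (w' i).IsHomogeneous 1 := by
    intro i
    refine Fin.cases ?_ (fun i => ?_) i
    · exact hw 0
    · rw [hw's]
      refine (hw _).add (IsHomogeneous.sum _ _ _ fun j _ => ?_)
      have h2 := (isHomogeneous_C (Fin (N + 1)) (t0 (i, j))).mul (hu j)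
      rwa [zero_add] at h2
  let v : Fin (n + 1) → L := fun i => π (w' i)
  have hv0 : v 0 = 1 := hπw0
  have hvs : ∀ i : Fin n, v i.succ = l0 G t0 i := by
    intro i
    show π (w' i.succ) = _
    rw [hw's, map_add, map_sum, hπw]
    unfold l0
    congr 1
    refine Finset.sum_congr rfl fun j _ => ?_
    rw [map_mul, hπu, ← algebraMap_eq, AlgHom.commutes]
  have haev : ∀ a : MvPolynomial (Fin (n + 1)) ℂ, π (aeval w' a) = aeval v a := by
    intro a
    have h2 := comp_aeval (R := ℂ) w' π
    exact congrArg (fun φ : MvPolynomial (Fin (n + 1)) ℂ →ₐ[ℂ] L => φ a) h2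
  have hind : ∀ m : ℕ, LinearIndependent ℂ fun p : Ms n jj m =>
      (∏ i : Fin n, v i.succ ^ p.1.2 i) * e p.1.1 := by
    intro m
    simp only [hvs]
    exact (ht0 m).1
  have hspn : ∀ m : ℕ, Submodule.span ℂ (Set.range fun p : Ms n jj m =>
      (∏ i : Fin n, v i.succ ^ p.1.2 i) * e p.1.1) = G.V ^ m := by
    intro m
    simp only [hvs]
    exact (ht0 m).2
  -- the forms
  have hE : ∀ i, ∃ E : Sx N, E.IsHomogeneous (jj i) ∧ π E = e i := by
    intro i
    have h2 := hes i
    have h3 : e i ∈ (homogeneousSubmodule (Fin (N + 1)) ℂ (jj i)).map π.toLinearMap := by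
      rw [(hπV (jj i)).1]; exact h2
    obtain ⟨E, hE1, hE2⟩ := h3
    exact ⟨E, hE1, hE2⟩
  choose E hE1 hE2 using hE
  have hπsum : ∀ a : Fin (Module.finrank G.K L) → MvPolynomial (Fin (n + 1)) ℂ,
      π (∑ i, aeval w' (a i) * E i) = ∑ i, aeval v (a i) * e i := by
    intro a
    rw [map_sum]
    exact Finset.sum_congr rfl fun i _ => by rw [map_mul, haev, hE2]
  refine ⟨n, w', E, jj, hnc, ⟨hw', hE1, ?_, ?_⟩, ?_, hcount, fun m => (hf m).symm.trans (hfr m)⟩
  · -- generation
    intro m F hF
    have h2 : π F ∈ (G.V ^ m : Submodule ℂ L) := by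
      rw [← (hπV m).1]
      exact ⟨F, hF, rfl⟩
    rw [← hspn m] at h2
    obtain ⟨a, ha1, ha2, ha3⟩ := gen v hv0 e jj m (π F) h2
    refine ⟨a, ha1, ha2, ?_⟩
    have h3 : (F - ∑ i, aeval w' (a i) * E i).IsHomogeneous m := by
      refine hF.sub (IsHomogeneous.sum _ _ _ fun i _ => ?_)
      rcases le_or_gt (jj i) m with h4 | h4
      · have h5 : (aeval w' (a i)).IsHomogeneous (m - jj i) := by
          simpa using (ha1 i h4).aeval w' hw'
        have h6 := h5.mul (hE1 i)
        rwa [Nat.sub_add_cancel h4] at h6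
      · rw [ha2 i h4, map_zero, zero_mul]
        exact isHomogeneous_zero _ _ _
    rw [← hπI m _ h3, map_sub, hπsum, ha3, sub_self]
  · -- uniqueness
    intro a ha
    have key : ∀ m : ℕ, (fun i => if jj i ≤ m then homogeneousComponent (m - jj i) (a i) else 0) =
        (0 : Fin (Module.finrank G.K L) → MvPolynomial (Fin (n + 1)) ℂ) := by
      intro m
      apply uniq v hv0 e jj m (hind m)
      · intro i β hβ
        split_ifs at hβ with h2
        · have h3 := homogeneousComponent_isHomogeneous (m - jj i) (a i) (mem_support_iff.1 hβ)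
          have h4 : β.degree = m - jj i := by
            rw [← h3, Finsupp.degree_eq_weight_one]
            rfl
          omega
        · simp at hβ
      · have h2 := hHom _ ha m
        have h3 : homogeneousComponent m (∑ i, aeval w' (a i) * E i) =
            ∑ i, aeval w' (if jj i ≤ m then homogeneousComponent (m - jj i) (a i) else 0) * E i := by
          rw [map_sum]
          refine Finset.sum_congr rfl fun i _ => ?_
          rw [hc_mul w' hw' (E i) (jj i) (hE1 i) (a i) m]
          split_ifs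
          · rfl
          · simp
        rw [h3] at h2
        have h4 : (∑ i, aeval w' (if jj i ≤ m then homogeneousComponent (m - jj i) (a i) else 0) *
            E i).IsHomogeneous m := by
          rw [← h3]
          exact homogeneousComponent_isHomogeneous _ _
        have h5 := (hπI m _ h4).2 h2
        rw [hπsum] at h5
        exact h5
    funext i
    refine MvPolynomial.ext _ _ fun β => ?_
    have h2 := congrFun (key (β.degree + jj i)) i
    simp only [le_add_iff_nonneg_left, zero_le, if_true, Nat.add_sub_cancel] at h2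
    have h3 := congrArg (coeff β) h2
    rw [coeff_homogeneousComponent] at h3
    simpa using h3
  · -- independence of the linear forms
    rw [Fintype.linearIndependent_iff]
    intro g hg
    rw [Fintype.linearIndependent_iff] at hwu
    have h2 := hwu (Sum.elim g fun j => ∑ i : Fin n, g i.succ * t0 (i, j)) (by
      rw [← hg, Fintype.sum_sum_type]
      simp only [Sum.elim_inl, Sum.elim_inr]
      rw [Fin.sum_univ_succ, Fin.sum_univ_succ (fun i => g i • w' i), hw'0]
      simp only [hw's, smul_add, Finset.sum_add_distrib]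
      rw [add_assoc]
      congr 2
      simp only [Finset.sum_smul, Finset.smul_sum]
      rw [Finset.sum_comm]
      refine Finset.sum_congr rfl fun i _ => Finset.sum_congr rfl fun j _ => ?_
      rw [mul_smul, MvPolynomial.smul_eq_C_mul (u j) (t0 (i, j))])
    intro i
    exact h2 (Sum.inl i)

end Pool.Agent.Lib.MP_776403_ag.SD.CE
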