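import Pool.Agent.Lib.MP_776403_ag.SD.UK.Spec2

/-!
# Equality in the Castelnuovo bound: the conductor of an element (helper57)

`R = k[X_1, …, X_n]`, `φ : R → L` injective (`X_i ↦ l_i`), `e_1, …, e_D ∈ L` independent over `R`.  For `r` in the span
of the `e_i` over the field of fractions: the pairs `(p, p')` with `φ(p) r = ∑ φ(p'_i) e_i` are the multiples of one pair
`(q, A)` (unique factorization).  If `(q, A)` is not small then `r` adds at least
`binom (n - 1 + m - m₁) (n - 1)` to the dimension.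
-/

set_option autoImplicit false

open MvPolynomial

noncomputable section

namespace Pool.Agent.Lib.MP_776403_ag.SD.CE

namespace CondAux

variable {k L : Type} [Field k] [Field L] [Algebra k L] {n D : ℕ}

/-- The conductor is principal. -/
theorem cond (l : Fin n → L) (hl : AlgebraicIndependent k l) (e : Fin D → L)
    (hind : ∀ p : Fin D → MvPolynomial (Fin n) k, ∑ i, aeval l (p i) * e i = 0 → ∀ i, p i = 0)
    (r : L) (q0 : MvPolynomial (Fin n) k) (hq0 : q0 ≠ 0) (p0 : Fin D → MvPolynomial (Fin n) k)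
    (h0 : aeval l q0 * r = ∑ i, aeval l (p0 i) * e i) :
    ∃ (q : MvPolynomial (Fin n) k) (A : Fin D → MvPolynomial (Fin n) k), q ≠ 0 ∧
      aeval l q * r = ∑ i, aeval l (A i) * e i ∧
      ∀ (p : MvPolynomial (Fin n) k) (p' : Fin D → MvPolynomial (Fin n) k),
        aeval l p * r = ∑ i, aeval l (p' i) * e i → ∃ u, p = q * u ∧ ∀ i, p' i = A i * u := by
  classical
  have hinj : Function.Injective (aeval l : MvPolynomial (Fin n) k →ₐ[k] L) := hl
  have hne : ∀ p : MvPolynomial (Fin n) k, p ≠ 0 → aeval l p ≠ 0 := by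
    intro p hp h
    exact hp (hinj (by rw [h, map_zero]))
  have hred : ∀ i, ∃ a b c : MvPolynomial (Fin n) k, IsRelPrime a b ∧ c * a = p0 i ∧ c * b = q0 :=
    fun i => UniqueFactorizationMonoid.exists_reduced_factors' (p0 i) q0 hq0
  choose a b c hab hca hcb using hred
  have hb : ∀ i, b i ≠ 0 := by
    intro i h
    apply hq0
    rw [← hcb i, h, mul_zero]
  have hc : ∀ i, c i ≠ 0 := by
    intro i h
    apply hq0
    rw [← hcb i, h, zero_mul]
  let _ : StrongNormalizationMonoid (MvPolynomial (Fin n) k) :=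
    UniqueFactorizationMonoid.strongNormalizationMonoid
  let _ : NormalizedGCDMonoid (MvPolynomial (Fin n) k) :=
    UniqueFactorizationMonoid.toNormalizedGCDMonoid _
  let q : MvPolynomial (Fin n) k := Finset.univ.lcm b
  have hq : ∀ i, b i ∣ q := fun i => Finset.dvd_lcm (Finset.mem_univ i)
  have hqq : q ∣ q0 := Finset.lcm_dvd fun i _ => ⟨c i, by rw [mul_comm, hcb i]⟩
  choose s hs using hq
  have hq1 : q ≠ 0 := fun h => hq0 (zero_dvd_iff.1 (h ▸ hqq))
  refine ⟨q, fun i => s i * a i, hq1, ?_, ?_⟩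
  · refine mul_left_cancel₀ (hne q0 hq0) ?_
    calc aeval l q0 * (aeval l q * r) = aeval l q * (aeval l q0 * r) := by ring
      _ = ∑ i, aeval l q * (aeval l (p0 i) * e i) := by rw [h0, Finset.mul_sum]
      _ = ∑ i, aeval l q0 * (aeval l (s i * a i) * e i) := by
        refine Finset.sum_congr rfl fun i _ => ?_
        have h1 : q * p0 i = q0 * (s i * a i) := by
          rw [hs i, ← hca i, ← hcb i]
          ring
        have h2 := congrArg (aeval l) h1
        rw [map_mul, map_mul] at h2
        rw [← mul_assoc, ← mul_assoc, h2]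
      _ = aeval l q0 * ∑ i, aeval l (s i * a i) * e i := by rw [Finset.mul_sum]
  · intro p p' hp
    have h1 : ∀ i, p * p0 i = q0 * p' i := by
      have h2 := hind (fun i => p * p0 i - q0 * p' i) (by
        simp only [map_sub, map_mul, sub_mul, Finset.sum_sub_distrib]
        have h3 : ∑ i, aeval l p * aeval l (p0 i) * e i = aeval l p * (aeval l q0 * r) := by
          rw [h0, Finset.mul_sum]
          exact Finset.sum_congr rfl fun i _ => by ring
        have h4 : ∑ i, aeval l q0 * aeval l (p' i) * e i = aeval l q0 * (aeval l p * r) := by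
          rw [hp, Finset.mul_sum]
          exact Finset.sum_congr rfl fun i _ => by ring
        rw [h3, h4]
        ring)
      intro i
      exact sub_eq_zero.1 (h2 i)
    have h2 : ∀ i, p * a i = b i * p' i := by
      intro i
      refine mul_left_cancel₀ (hc i) ?_
      calc c i * (p * a i) = p * (c i * a i) := by ring
        _ = q0 * p' i := by rw [hca i, h1 i]
        _ = c i * (b i * p' i) := by rw [← hcb i]; ring
    have h3 : ∀ i, b i ∣ p := by
      intro i
      have h4 : b i ∣ p * a i := ⟨p' i, h2 i⟩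
      exact (hab i).symm.dvd_of_dvd_mul_right h4
    have h4 : q ∣ p := Finset.lcm_dvd fun i _ => h3 i
    obtain ⟨u, hu⟩ := h4
    refine ⟨u, hu, fun i => ?_⟩
    refine mul_left_cancel₀ (hb i) ?_
    rw [← h2 i, hu, hs i]
    ring

/-- The dimension of the polynomials of bounded degree. -/
theorem fr_le (hmon : ∀ n d : ℕ, Nat.card {α : Fin n →₀ ℕ // α.degree ≤ d} = (n + d).choose n)
    (d : ℕ) : Module.finrank k (restrictTotalDegree (Fin n) k d) = (n + d).choose n ∧
      FiniteDimensional k (restrictTotalDegree (Fin n) k d) := by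
  have h1 : Nat.card ({α : Fin n →₀ ℕ | (α.sum fun _ e => e) ≤ d} : Set (Fin n →₀ ℕ)) =
      (n + d).choose n := by
    rw [← hmon n d]
    rfl
  have hfin : Finite ({α : Fin n →₀ ℕ | (α.sum fun _ e => e) ≤ d} : Set (Fin n →₀ ℕ)) := by
    refine Nat.finite_of_card_ne_zero ?_
    rw [h1]
    exact (Nat.choose_pos (Nat.le_add_right _ _)).ne'
  have hb := basisRestrictSupport (σ := Fin n) k {α : Fin n →₀ ℕ | (α.sum fun _ e => e) ≤ d}
  refine ⟨?_, ?_⟩
  · rw [← h1]
    exact Module.finrank_eq_nat_card_basis hb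
  · exact Module.Finite.of_basis hb

/-- The map `(p_i) ↦ ∑ φ(p_i) e_i` on polynomials of bounded degrees. -/
def PsiF (l : Fin n → L) {ι : Type} [Fintype ι] (e : ι → L) (N : ι → ℕ) :
    (∀ i, restrictTotalDegree (Fin n) k (N i)) →ₗ[k] L where
  toFun p := ∑ i, aeval l (p i : MvPolynomial (Fin n) k) * e i
  map_add' p q := by
    simp [add_mul, Finset.sum_add_distrib]
  map_smul' a p := by
    simp [Finset.smul_sum]

theorem PsiF_apply (l : Fin n → L) {ι : Type} [Fintype ι] (e : ι → L) (N : ι → ℕ)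
    (p : ∀ i, restrictTotalDegree (Fin n) k (N i)) :
    PsiF l e N p = ∑ i, aeval l (p i : MvPolynomial (Fin n) k) * e i := rfl

/-- The dimension of the image. -/
theorem fr_PsiF (hmon : ∀ n d : ℕ, Nat.card {α : Fin n →₀ ℕ // α.degree ≤ d} = (n + d).choose n)
    (l : Fin n → L) {ι : Type} [Fintype ι] (e : ι → L) (N : ι → ℕ) :
    Module.finrank k (LinearMap.range (PsiF (k := k) l e N)) ≤ ∑ i, (n + N i).choose n ∧
    FiniteDimensional k (LinearMap.range (PsiF (k := k) l e N)) ∧
    ((∀ p : ι → MvPolynomial (Fin n) k, ∑ i, aeval l (p i) * e i = 0 → ∀ i, p i = 0) →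
      Module.finrank k (LinearMap.range (PsiF (k := k) l e N)) = ∑ i, (n + N i).choose n) := by
  have hfd : ∀ i, FiniteDimensional k (restrictTotalDegree (Fin n) k (N i)) :=
    fun i => (fr_le hmon (N i)).2
  have h1 : Module.finrank k (∀ i, restrictTotalDegree (Fin n) k (N i)) =
      ∑ i, (n + N i).choose n := by
    rw [Module.finrank_pi_fintype]
    exact Finset.sum_congr rfl fun i _ => (fr_le hmon (N i)).1
  refine ⟨?_, inferInstance, ?_⟩
  · rw [← h1]
    exact LinearMap.finrank_range_le _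
  · intro h
    rw [← h1]
    refine LinearMap.finrank_range_of_inj ?_
    intro p p' hp
    have h2 := h (fun i => (p i : MvPolynomial (Fin n) k) - (p' i : MvPolynomial (Fin n) k)) (by
      simp only [map_sub, sub_mul, Finset.sum_sub_distrib]
      rw [PsiF_apply, PsiF_apply] at hp
      rw [hp, sub_self])
    funext i
    exact Subtype.ext (sub_eq_zero.1 (h2 i))

/-- THE COUNT. -/
theorem count (hmon : ∀ n d : ℕ, Nat.card {α : Fin n →₀ ℕ // α.degree ≤ d} = (n + d).choose n)
    (hn : 1 ≤ n) (l : Fin n → L) (hl : AlgebraicIndependent k l) (e : Fin D → L)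
    (hind : ∀ p : Fin D → MvPolynomial (Fin n) k, ∑ i, aeval l (p i) * e i = 0 → ∀ i, p i = 0)
    (jj : Fin D → ℕ) (r : L) (hr : r ≠ 0) (q : MvPolynomial (Fin n) k)
    (A : Fin D → MvPolynomial (Fin n) k) (hq : q ≠ 0)
    (hu : ∀ (p : MvPolynomial (Fin n) k) (p' : Fin D → MvPolynomial (Fin n) k),
        aeval l p * r = ∑ i, aeval l (p' i) * e i → ∃ u, p = q * u ∧ ∀ i, p' i = A i * u)
    (m1 m : ℕ) (hm1 : m1 < m) (hm : ∀ i, jj i ≤ m)
    (hbig : 1 ≤ q.totalDegree ∨ ∃ i, A i ≠ 0 ∧ m1 < jj i + (A i).totalDegree)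
    (W : Submodule k L) [FiniteDimensional k W]
    (hW1 : ∀ i (p : MvPolynomial (Fin n) k), p.totalDegree ≤ m - jj i → aeval l p * e i ∈ W)
    (hW2 : ∀ p : MvPolynomial (Fin n) k, p.totalDegree ≤ m - m1 → aeval l p * r ∈ W) :
    ∑ i, (n + (m - jj i)).choose n + (n - 1 + (m - m1)).choose (n - 1) ≤ Module.finrank k W := by
  have hinj : Function.Injective (aeval l : MvPolynomial (Fin n) k →ₐ[k] L) := hl
  set F := LinearMap.range (PsiF (k := k) l e fun i => m - jj i) with hF
  set G := LinearMap.range (PsiF (k := k) l (fun _ : Unit => r) fun _ => m - m1) with hG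
  set H := LinearMap.range (PsiF (k := k) l (fun _ : Unit => aeval l q * r) fun _ => m - m1 - 1)
    with hH
  have hFf := fr_PsiF (k := k) hmon l e fun i => m - jj i
  have hGf := fr_PsiF (k := k) hmon l (fun _ : Unit => r) fun _ => m - m1
  have hHf := fr_PsiF (k := k) hmon l (fun _ : Unit => aeval l q * r) fun _ => m - m1 - 1
  have hF1 := hFf.2.2 hind
  have hG1 := hGf.2.2 (by
    intro p hp i
    simp only [Finset.univ_unique, Finset.sum_singleton] at hp
    rcases mul_eq_zero.1 hp with h | h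
    · have h2 : p default = 0 := hinj (by rw [h, map_zero])
      rw [Subsingleton.elim i default]
      exact h2
    · exact absurd h hr)
  have hH1 := hHf.1
  rw [← hF] at hF1 hFf
  rw [← hG] at hG1 hGf
  rw [← hH] at hH1 hHf
  have i1 : FiniteDimensional k F := hFf.2.1
  have i2 : FiniteDimensional k G := hGf.2.1
  have i3 : FiniteDimensional k H := hHf.2.1
  simp only [Finset.univ_unique, Finset.sum_singleton] at hG1 hH1
  have hle : F ⊓ G ≤ H := by
    rintro x ⟨⟨p', hp'⟩, ⟨p, hp⟩⟩
    rw [PsiF_apply] at hp' hp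
    simp only [Finset.univ_unique, Finset.sum_singleton] at hp
    obtain ⟨u, hu1, hu2⟩ := hu (p default : MvPolynomial (Fin n) k)
      (fun i => (p' i : MvPolynomial (Fin n) k)) (by rw [hp, hp'])
    have hdeg : u.totalDegree ≤ m - m1 - 1 := by
      by_cases hu0 : u = 0
      · rw [hu0, totalDegree_zero]
        exact Nat.zero_le _
      have h1 := (mem_restrictTotalDegree (σ := Fin n) _ _).1 (p default).2
      rw [hu1, totalDegree_mul_of_isDomain hq hu0] at h1
      rcases hbig with hb | ⟨i, hi0, hi⟩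
      · omega
      · have h2 := (mem_restrictTotalDegree (σ := Fin n) _ _).1 (p' i).2
        have h3 := hu2 i
        rw [h3, totalDegree_mul_of_isDomain hi0 hu0] at h2
        have := hm i
        omega
    refine ⟨fun _ => ⟨u, (mem_restrictTotalDegree (σ := Fin n) _ _).2 hdeg⟩, ?_⟩
    rw [PsiF_apply]
    simp only [Finset.univ_unique, Finset.sum_singleton]
    rw [← hp, hu1, map_mul]
    ring
  have hFW : F ⊔ G ≤ W := by
    refine sup_le ?_ ?_
    · rintro x ⟨p, rfl⟩
      rw [PsiF_apply]
      exact Submodule.sum_mem _ fun i _ =>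
        hW1 i _ ((mem_restrictTotalDegree (σ := Fin n) _ _).1 (p i).2)
    · rintro x ⟨p, rfl⟩
      rw [PsiF_apply]
      simp only [Finset.univ_unique, Finset.sum_singleton]
      exact hW2 _ ((mem_restrictTotalDegree (σ := Fin n) _ _).1 (p default).2)
  have h1 := Submodule.finrank_sup_add_finrank_inf_eq F G
  have h2 := Submodule.finrank_mono hFW
  have h3 := Submodule.finrank_mono hle
  obtain ⟨n', rfl⟩ : ∃ n', n = n' + 1 := ⟨n - 1, by omega⟩
  obtain ⟨M, hM⟩ : ∃ M, m - m1 = M + 1 := ⟨m - m1 - 1, by omega⟩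
  rw [hM] at hG1 hH1 ⊢
  have h4 : (n' + 1 + (M + 1)).choose (n' + 1) =
      (n' + (M + 1)).choose n' + (n' + 1 + M).choose (n' + 1) := by
    have h5 := Nat.choose_succ_succ (n' + (M + 1)) n'
    have h6 : n' + 1 + (M + 1) = (n' + (M + 1)).succ := by omega
    have h7 : n' + 1 + M = n' + (M + 1) := by omega
    rw [h6, h7]
    exact h5
  simp only [Nat.add_sub_cancel] at hH1 ⊢
  omega

end CondAux

end Pool.Agent.Lib.MP_776403_ag.SD.CE
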