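import Pool.Agent.Lib.MP_776403_ag.SD.CE.Spec
import Pool.Agent.Lib.MP_776403_ag.SD.UK.Mon

/-!
# `S_Dd`: the dimension of the polynomials `p` with `p a / b` of small degree
-/

set_option autoImplicit false

open MvPolynomial

noncomputable section

namespace Pool.Agent.Lib.MP_776403_ag.SD.CE

namespace DdAux

/-- The dimension of the polynomials of bounded degree. -/
theorem finrank_rd (n d : ℕ) (K : Type) [Field K] :
    Module.finrank K (restrictTotalDegree (Fin n) K d) = (n + d).choose n := by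
  have h := Module.finrank_eq_nat_card_basis
    (basisRestrictSupport K {m : Fin n →₀ ℕ | (m.sum fun _ e => e) ≤ d})
  have h2 : Module.finrank K (restrictTotalDegree (Fin n) K d)
      = Nat.card {m : Fin n →₀ ℕ | (m.sum fun _ e => e) ≤ d} := h
  rw [h2, ← UK.MonAux.card_all n d]
  rfl

/-- A unit is a constant. -/
theorem deg_unit {n : ℕ} {K : Type} [Field K] {b : MvPolynomial (Fin n) K} (hb : IsUnit b) :
    b.totalDegree = 0 := by
  obtain ⟨c, hc⟩ := hb.exists_right_inv
  have h0 : b ≠ 0 := hb.ne_zero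
  have hc0 : c ≠ 0 := by
    rintro rfl
    rw [mul_zero] at hc
    exact zero_ne_one hc
  have h := totalDegree_mul_of_isDomain h0 hc0
  rw [hc, totalDegree_one] at h
  omega

/-- A nonzero polynomial of degree zero is a unit. -/
theorem unit_deg {n : ℕ} {K : Type} [Field K] {b : MvPolynomial (Fin n) K} (hb0 : b ≠ 0)
    (hb : b.totalDegree = 0) : IsUnit b := by
  rw [totalDegree_eq_zero_iff_eq_C] at hb
  rw [hb]
  refine IsUnit.map C (isUnit_iff_ne_zero.2 fun h => hb0 ?_)
  rw [hb, h, C_0]

/-- The elements are multiples of `b` of small degree. -/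
theorem key {n : ℕ} {K : Type} [Field K] {a b : MvPolynomial (Fin n) K} {h d : ℕ}
    (hab : IsRelPrime a b) (hb0 : b ≠ 0) (hu : IsUnit b → h < a.totalDegree)
    {p q : MvPolynomial (Fin n) K} (hp0 : p ≠ 0) (hpd : p.totalDegree ≤ d)
    (hq : p * a = b * q) (hqd : q = 0 ∨ q.totalDegree ≤ d + h) :
    ∃ p' : MvPolynomial (Fin n) K, p = b * p' ∧ p'.totalDegree + 1 ≤ d := by
  have ha0 : a ≠ 0 := by
    rintro rfl
    have h1 : IsUnit b := hab (dvd_zero b) (dvd_refl b)
    have h2 := hu h1
    rw [totalDegree_zero] at h2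
    omega
  have hdvd : b ∣ p := by
    have h1 : b ∣ p * a := ⟨q, hq⟩
    exact hab.symm.dvd_of_dvd_mul_right h1
  obtain ⟨p', hp'⟩ := hdvd
  have hp'0 : p' ≠ 0 := by
    rintro rfl
    rw [mul_zero] at hp'
    exact hp0 hp'
  have hdeg : p.totalDegree = b.totalDegree + p'.totalDegree := by
    rw [hp']
    exact totalDegree_mul_of_isDomain hb0 hp'0
  refine ⟨p', hp', ?_⟩
  by_cases hb : IsUnit b
  · have h1 := deg_unit hb
    have h2 := hu hb
    have hq0 : q ≠ 0 := by
      rintro rfl
      rw [mul_zero] at hq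
      exact mul_ne_zero hp0 ha0 hq
    have h3 : q.totalDegree ≤ d + h := hqd.resolve_left hq0
    have h4 := totalDegree_mul_of_isDomain hp0 ha0
    have h5 := totalDegree_mul_of_isDomain hb0 hq0
    rw [hq] at h4
    omega
  · have h1 : b.totalDegree ≠ 0 := fun h1 => hb (unit_deg hb0 h1)
    omega

end DdAux

theorem tDd : S_Dd := by
  intro n K _ a b h d hn hab hb0 hu W hW
  obtain ⟨s, rfl⟩ : ∃ s, n = s + 1 := ⟨n - 1, by omega⟩
  rcases Nat.eq_zero_or_pos d with rfl | hd
  · have hbot : W = ⊥ := by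
      rw [Submodule.eq_bot_iff]
      intro p hp
      by_contra hp0
      obtain ⟨h1, q, h2, h3⟩ := hW p hp
      obtain ⟨p', -, h4⟩ := DdAux.key hab hb0 hu hp0 h1 h2 h3
      omega
    rw [hbot, finrank_bot, zero_add]
    simp
  · obtain ⟨e, rfl⟩ : ∃ e, d = e + 1 := ⟨d - 1, by omega⟩
    have hle : W ≤ (restrictTotalDegree (Fin (s + 1)) K e).map (LinearMap.mulLeft K b) := by
      intro p hp
      rcases eq_or_ne p 0 with rfl | hp0
      · exact Submodule.zero_mem _
      · obtain ⟨h1, q, h2, h3⟩ := hW p hp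
        obtain ⟨p', h4, h5⟩ := DdAux.key hab hb0 hu hp0 h1 h2 h3
        refine Submodule.mem_map.2 ⟨p', ?_, ?_⟩
        · rw [mem_restrictTotalDegree]
          omega
        · rw [LinearMap.mulLeft_apply, ← h4]
    have h1 : Module.finrank K W ≤
        Module.finrank K ((restrictTotalDegree (Fin (s + 1)) K e).map (LinearMap.mulLeft K b)) :=
      Submodule.finrank_mono hle
    have h2 := (h1.trans (Submodule.finrank_map_le (LinearMap.mulLeft K b)
      (restrictTotalDegree (Fin (s + 1)) K e)))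
    rw [DdAux.finrank_rd] at h2
    have h3 : (s + 1 + (e + 1)).choose (s + 1) =
        (s + 1 - 1 + (e + 1)).choose (s + 1 - 1) + (s + 1 + e).choose (s + 1) := by
      have e1 : s + 1 + (e + 1) = (s + 1 + e) + 1 := by ring
      have e2 : s + 1 - 1 = s := rfl
      have e3 : s + (e + 1) = s + 1 + e := by ring
      rw [e1, e2, e3, Nat.choose_succ_succ']
    omega

end Pool.Agent.Lib.MP_776403_ag.SD.CE
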