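import Pool.Agent.Lib.MP_776403_ag.SD.CE.Spec

/-!
# Equality in a count (`S_Eq`)
-/

set_option autoImplicit false

open MvPolynomial

noncomputable section

namespace Pool.Agent.Lib.MP_776403_ag.SD.CE

theorem tEq : S_Eq := by
  intro D c J jj hc hJ hlow hsum
  classical
  have hND : ∀ j, (Finset.univ.filter fun i => jj i ≤ j).card ≤ D := fun j => by
    simpa using Finset.card_le_univ (Finset.univ.filter fun i : Fin D => jj i ≤ j)
  have hcomp : ∀ j, (Finset.univ.filter fun i => j < jj i).card =
      D - (Finset.univ.filter fun i => jj i ≤ j).card := by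
    intro j
    have h := Finset.card_filter_add_card_filter_not (s := (Finset.univ : Finset (Fin D)))
      (fun i => jj i ≤ j)
    simp only [not_le, Finset.card_univ, Fintype.card_fin] at h
    omega
  have h1 : ∑ i, jj i = ∑ j ∈ Finset.range (max J D),
      (D - (Finset.univ.filter fun i => jj i ≤ j).card) := by
    have h2 : ∀ i, jj i = ∑ j ∈ Finset.range (max J D), if j < jj i then 1 else 0 := by
      intro i
      rw [← Finset.card_filter]
      have h3 : (Finset.range (max J D)).filter (fun j => j < jj i) = Finset.range (jj i) := by
        ext j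
        simp only [Finset.mem_filter, Finset.mem_range]
        have := hJ i
        constructor
        · exact fun h => h.2
        · exact fun h => ⟨by omega, h⟩
      rw [h3, Finset.card_range]
    calc ∑ i, jj i = ∑ i, ∑ j ∈ Finset.range (max J D), (if j < jj i then 1 else 0) :=
          Finset.sum_congr rfl fun i _ => h2 i
      _ = ∑ j ∈ Finset.range (max J D), ∑ i, (if j < jj i then 1 else 0) := Finset.sum_comm
      _ = _ := by
          refine Finset.sum_congr rfl fun j _ => ?_
          rw [← Finset.card_filter, hcomp]
  have h4 : ∑ j ∈ Finset.range D, (D - 1 - c * j) =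
      ∑ j ∈ Finset.range (max J D), (D - 1 - c * j) := by
    refine Finset.sum_subset (Finset.range_mono (le_max_right _ _)) ?_
    intro j _ hj
    rw [Finset.mem_range, not_lt] at hj
    have : j ≤ c * j := Nat.le_mul_of_pos_left j hc
    omega
  have hle : ∀ j ∈ Finset.range (max J D),
      D - (Finset.univ.filter fun i => jj i ≤ j).card ≤ D - 1 - c * j := by
    intro j _
    have := hlow j
    rw [Nat.mul_comm j c] at this
    omega
  have heq : ∑ j ∈ Finset.range (max J D),
      (D - (Finset.univ.filter fun i => jj i ≤ j).card) =
      ∑ j ∈ Finset.range (max J D), (D - 1 - c * j) := by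
    refine le_antisymm (Finset.sum_le_sum hle) ?_
    rw [← h4, ← h1]
    exact hsum
  have hall := (Finset.sum_eq_sum_iff_of_le hle).1 heq
  intro j
  rcases lt_or_ge j (max J D) with hj | hj
  · have := hall j (Finset.mem_range.2 hj)
    have h5 := hlow j
    have h6 := hND j
    rw [Nat.mul_comm j c] at h5 ⊢
    omega
  · have h5 : (Finset.univ.filter fun i => jj i ≤ j) = Finset.univ := by
      refine Finset.filter_true_of_mem fun i _ => ?_
      have := hJ i
      omega
    rw [h5, Finset.card_univ, Fintype.card_fin]
    have : j ≤ j * c := Nat.le_mul_of_pos_right j hc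
    omega

end Pool.Agent.Lib.MP_776403_ag.SD.CE
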