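import Pool.Agent.Lib.MP_776403_ag.SD.CE.Spec
import Pool.Agent.Lib.MP_776403_ag.SD.UK.Low

/-!
# Freeness over the polynomial ring of the generic forms (helper53)
-/

set_option autoImplicit false

open MvPolynomial

noncomputable section

namespace Pool.Agent.Lib.MP_776403_ag.SD.CE

open UK

namespace FrAux

section Pol

variable {n : ℕ} {k : Type} [Field k]

/-- Polynomials with `|α| + j ≤ m` for all monomials. -/
abbrev S (k : Type) [Field k] (n m j : ℕ) : Submodule k (MvPolynomial (Fin n) k) :=
  restrictSupport k {α : Fin n →₀ ℕ | α.degree + j ≤ m}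

theorem mem_S {m j : ℕ} {p : MvPolynomial (Fin n) k} :
    p ∈ S k n m j ↔ (p ≠ 0 → p.totalDegree + j ≤ m) := by
  rw [S, mem_restrictSupport_iff]
  constructor
  · intro h hp
    obtain ⟨α, hα, hd⟩ := p.support.exists_mem_eq_sup (by simpa using hp)
      (fun s => s.sum fun _ e => e)
    have h1 : α.degree + j ≤ m := h hα
    have h2 : p.totalDegree = α.degree := hd
    omega
  · intro h α hα
    have hp : p ≠ 0 := by
      rintro rfl
      simp at hα
    have h1 := h hp
    have h2 : α.degree ≤ p.totalDegree := le_totalDegree hα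
    change α.degree + j ≤ m
    omega

theorem card_S (hMon : ∀ n d : ℕ, Nat.card {α : Fin n →₀ ℕ // α.degree ≤ d} = (n + d).choose n)
    (m j : ℕ) : Module.finrank k (S k n m j) =
      if j ≤ m then (n + (m - j)).choose n else 0 := by
  rw [Module.finrank_eq_nat_card_basis (basisRestrictSupport k _)]
  split_ifs with h
  · rw [← hMon n (m - j)]
    refine Nat.card_congr (Equiv.subtypeEquivRight fun α => ?_)
    change α.degree + j ≤ m ↔ _
    omega
  · have : IsEmpty {α : Fin n →₀ ℕ | α.degree + j ≤ m} := by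
      refine ⟨fun α => ?_⟩
      have h1 : α.1.degree + j ≤ m := α.2
      omega
    exact Nat.card_of_isEmpty

theorem fin_S (hMon : ∀ n d : ℕ, Nat.card {α : Fin n →₀ ℕ // α.degree ≤ d} = (n + d).choose n)
    (m j : ℕ) : FiniteDimensional k (S k n m j) := by
  have h1 : Finite {α : Fin n →₀ ℕ | α.degree + j ≤ m} := by
    have h2 : Finite {α : Fin n →₀ ℕ // α.degree ≤ m} := by
      refine Nat.finite_of_card_ne_zero ?_
      rw [hMon]
      exact (Nat.choose_pos (Nat.le_add_right _ _)).ne'
    refine Finite.of_injective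
      (fun α => (⟨α.1, le_trans (Nat.le_add_right _ _) α.2⟩ : {α : Fin n →₀ ℕ // α.degree ≤ m})) ?_
    intro α β h
    exact Subtype.ext (congrArg (fun x => x.1) h)
  exact Module.Finite.of_basis (basisRestrictSupport k _)

theorem deg_le {a b p q : MvPolynomial (Fin n) k} (hu : IsUnit b) (ha : a ≠ 0) (hp : p ≠ 0)
    (h : p * a = b * q) : p.totalDegree + a.totalDegree ≤ q.totalDegree := by
  have h4 : (p * a).totalDegree = p.totalDegree + a.totalDegree :=
    totalDegree_mul_of_isDomain hp ha
  have h5 : (b * q).totalDegree ≤ b.totalDegree + q.totalDegree := totalDegree_mul _ _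
  obtain ⟨r, -, hr⟩ := isUnit_iff_eq_C_of_isReduced.1 hu
  have h6 : b.totalDegree = 0 := by rw [hr, totalDegree_C]
  rw [h] at h4
  omega

theorem dd_const (hDd : S_Dd) (hn : 1 ≤ n) (d : ℕ) (W : Submodule k (MvPolynomial (Fin n) k))
    (hd : ∀ p ∈ W, p.totalDegree ≤ d) (hW : ∀ p ∈ W, p ≠ 0 → p.totalDegree + 1 ≤ d) :
    Module.finrank k W + (n - 1 + d).choose (n - 1) ≤ (n + d).choose n := by
  have hX : (X ⟨0, hn⟩ : MvPolynomial (Fin n) k).totalDegree = 1 := totalDegree_X _
  refine hDd n k (X ⟨0, hn⟩) 1 0 d hn isRelPrime_one_right one_ne_zero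
    (fun _ => by rw [hX]; exact Nat.one_pos) W (fun p hp => ⟨hd p hp, p * X ⟨0, hn⟩, ?_, ?_⟩)
  · rw [one_mul]
  · by_cases hp0 : p = 0
    · left
      rw [hp0, zero_mul]
    right
    have h1 := totalDegree_mul p (X ⟨0, hn⟩)
    have h2 := hW p hp hp0
    omega

end Pol

section Gn

variable {n c : ℕ} {L : Type} [Field L] [Algebra ℂ L] (G : Gen n c L)

theorem aev_mem_K (p : MvPolynomial (Fin n) G.K0) : aeval G.l p ∈ G.K := by
  induction p using MvPolynomial.induction_on with
  | C a =>
    rw [aeval_C]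
    exact LowAux.K0_le G a.2
  | add p q hp hq =>
    rw [map_add]
    exact add_mem hp hq
  | mul_X p i hp =>
    rw [map_mul, aeval_X]
    exact mul_mem hp (LowAux.mem_K G i)

theorem aev_mem {d : ℕ} (p : MvPolynomial (Fin n) G.K0) (hp : p.totalDegree ≤ d) :
    aeval G.l p ∈ G.V0 ^ d := by
  rw [p.as_sum, map_sum]
  refine Submodule.sum_mem _ fun α hα => ?_
  rw [aeval_monomial, Finsupp.prod_fintype _ _ (fun k => pow_zero _), ← Algebra.smul_def]
  refine Submodule.smul_mem _ _ (LowAux.pow_mono G ?_ (LowAux.lprod_mem G α))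
  have h2 : ∑ k, α k = α.degree := (Finsupp.degree_eq_sum α).symm
  have h3 : α.degree ≤ p.totalDegree := le_totalDegree hα
  omega

variable {D : ℕ} (e : Fin D → L) (jj : Fin D → ℕ)

theorem uniq (hl : AlgebraicIndependent G.K0 G.l) (he : LinearIndependent G.K e)
    (q : Fin D → MvPolynomial (Fin n) G.K0) (h : ∑ i, aeval G.l (q i) * e i = 0) : q = 0 := by
  rw [Fintype.linearIndependent_iff] at he
  have h2 := he (fun i => ⟨_, aev_mem_K G (q i)⟩) h
  funext i
  apply hl
  rw [Pi.zero_apply, map_zero]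
  exact congrArg Subtype.val (h2 i)

/-- `q ↦ ∑ q_i(l) e_i`. -/
def Lam (m : ℕ) : (∀ i, S G.K0 n m (jj i)) →ₗ[G.K0] L where
  toFun q := ∑ i, aeval G.l (q i : MvPolynomial (Fin n) G.K0) * e i
  map_add' p q := by
    rw [← Finset.sum_add_distrib]
    refine Finset.sum_congr rfl fun i _ => ?_
    rw [Pi.add_apply, Submodule.coe_add, map_add, add_mul]
  map_smul' a p := by
    rw [RingHom.id_apply, Finset.smul_sum]
    refine Finset.sum_congr rfl fun i _ => ?_
    rw [Pi.smul_apply, Submodule.coe_smul, map_smul, smul_mul_assoc]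

theorem lam_inj (hl : AlgebraicIndependent G.K0 G.l) (he : LinearIndependent G.K e) (m : ℕ) :
    Function.Injective (Lam G e jj m) := by
  rw [injective_iff_map_eq_zero]
  intro q hq
  have h1 := uniq G e hl he (fun i => (q i : MvPolynomial (Fin n) G.K0)) hq
  funext i
  exact Subtype.ext (congrFun h1 i)

theorem finrank_lam
    (hMon : ∀ n d : ℕ, Nat.card {α : Fin n →₀ ℕ // α.degree ≤ d} = (n + d).choose n)
    (hl : AlgebraicIndependent G.K0 G.l) (he : LinearIndependent G.K e) (m : ℕ) :
    Module.finrank G.K0 (LinearMap.range (Lam G e jj m)) =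
      ∑ i, if jj i ≤ m then (n + (m - jj i)).choose n else 0 := by
  have : ∀ i, FiniteDimensional G.K0 (S G.K0 n m (jj i)) := fun i => fin_S hMon m (jj i)
  rw [LinearMap.finrank_range_of_inj (lam_inj G e jj hl he m), Module.finrank_pi_fintype]
  exact Finset.sum_congr rfl fun i _ => card_S hMon m (jj i)

theorem mem_lam {m : ℕ} {x : L} : x ∈ LinearMap.range (Lam G e jj m) ↔
    ∃ q : Fin D → MvPolynomial (Fin n) G.K0, x = ∑ i, aeval G.l (q i) * e i ∧
      ∀ i, q i ≠ 0 → (q i).totalDegree + jj i ≤ m := by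
  constructor
  · rintro ⟨q, rfl⟩
    exact ⟨fun i => q i, rfl, fun i => mem_S.1 (q i).2⟩
  · rintro ⟨q, rfl, hq⟩
    exact ⟨fun i => ⟨q i, mem_S.2 (hq i)⟩, rfl⟩

theorem lam_le (hV : ∀ i, e i ∈ G.V ^ (jj i)) (m : ℕ) :
    LinearMap.range (Lam G e jj m) ≤ G.V0 ^ m := by
  intro x hx
  obtain ⟨q, rfl, hq⟩ := (mem_lam G e jj).1 hx
  refine Submodule.sum_mem _ fun i _ => ?_
  by_cases h0 : q i = 0
  · rw [h0, map_zero, zero_mul]
    exact Submodule.zero_mem _
  have h1 := hq i h0
  have h2 := Submodule.mul_mem_mul (aev_mem G (q i) le_rfl) (LowAux.V_sub G (jj i) (hV i))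
  rw [← pow_add] at h2
  exact LowAux.pow_mono G h1 h2

/-- `p ↦ p(l) v`. -/
def Psi (v : L) (d : ℕ) : S G.K0 n d 0 →ₗ[G.K0] L where
  toFun p := aeval G.l (p : MvPolynomial (Fin n) G.K0) * v
  map_add' p q := by
    rw [Submodule.coe_add, map_add, add_mul]
  map_smul' a p := by
    rw [RingHom.id_apply, Submodule.coe_smul, map_smul, smul_mul_assoc]

theorem psi_inj (hl : AlgebraicIndependent G.K0 G.l) {v : L} (hv : v ≠ 0) (d : ℕ) :
    Function.Injective (Psi G v d) := by
  rw [injective_iff_map_eq_zero]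
  intro p hp
  have h1 : aeval G.l (p : MvPolynomial (Fin n) G.K0) * v = 0 := hp
  have h2 := (mul_eq_zero.1 h1).resolve_right hv
  apply Subtype.ext
  apply hl
  rw [h2, Submodule.coe_zero, map_zero]

/-- Counting. -/
theorem count
    (hMon : ∀ n d : ℕ, Nat.card {α : Fin n →₀ ℕ // α.degree ≤ d} = (n + d).choose n)
    (hl : AlgebraicIndependent G.K0 G.l) (he : LinearIndependent G.K e)
    (hV : ∀ i, e i ∈ G.V ^ (jj i)) (m1 d : ℕ)
    (hfin : FiniteDimensional G.K0 (G.V0 ^ (m1 + d) : Submodule G.K0 L))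
    (v : L) (hv0 : v ≠ 0) (hv : v ∈ G.V0 ^ m1) :
    ∃ W : Submodule G.K0 (MvPolynomial (Fin n) G.K0),
      (∀ p ∈ W, p.totalDegree ≤ d ∧ ∃ q : Fin D → MvPolynomial (Fin n) G.K0,
        aeval G.l p * v = ∑ i, aeval G.l (q i) * e i ∧
        ∀ i, q i ≠ 0 → (q i).totalDegree + jj i ≤ m1 + d) ∧
      (∑ i, if jj i ≤ m1 + d then (n + (m1 + d - jj i)).choose n else 0) + (n + d).choose n ≤
        Module.finrank G.K0 (G.V0 ^ (m1 + d) : Submodule G.K0 L) + Module.finrank G.K0 W := by
  have hM := lam_le G e jj hV (m1 + d)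
  have hN : LinearMap.range (Psi G v d) ≤ G.V0 ^ (m1 + d) := by
    rintro _ ⟨p, rfl⟩
    have h1 : (p : MvPolynomial (Fin n) G.K0).totalDegree ≤ d := by
      by_cases h0 : (p : MvPolynomial (Fin n) G.K0) = 0
      · rw [h0, totalDegree_zero]
        exact Nat.zero_le _
      · exact (mem_S.1 p.2) h0
    have h2 := Submodule.mul_mem_mul (aev_mem G _ h1) hv
    rw [← pow_add, add_comm d m1] at h2
    exact h2
  set M := LinearMap.range (Lam G e jj (m1 + d)) with hMdef
  have hfM : FiniteDimensional G.K0 M := Submodule.finiteDimensional_of_le hM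
  have hfN : FiniteDimensional G.K0 (LinearMap.range (Psi G v d)) :=
    Submodule.finiteDimensional_of_le hN
  refine ⟨(M.comap (Psi G v d)).map (S G.K0 n d 0).subtype, ?_, ?_⟩
  · rintro _ ⟨p, hp, rfl⟩
    refine ⟨?_, ?_⟩
    · by_cases h0 : (p : MvPolynomial (Fin n) G.K0) = 0
      · rw [Submodule.subtype_apply, h0, totalDegree_zero]
        exact Nat.zero_le _
      · exact (mem_S.1 p.2) h0
    · exact (mem_lam G e jj).1 hp
  · have h1 : Module.finrank G.K0 M = _ := finrank_lam G e jj hMon hl he (m1 + d)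
    have h2 : Module.finrank G.K0 (LinearMap.range (Psi G v d)) = (n + d).choose n := by
      rw [LinearMap.finrank_range_of_inj (psi_inj G hl hv0 d), card_S hMon d 0,
        if_pos (Nat.zero_le _), Nat.sub_zero]
    have h3 := Submodule.finrank_sup_add_finrank_inf_eq M (LinearMap.range (Psi G v d))
    have h4 : Module.finrank G.K0 (M ⊔ LinearMap.range (Psi G v d) : Submodule G.K0 L) ≤
        Module.finrank G.K0 (G.V0 ^ (m1 + d) : Submodule G.K0 L) :=
      Submodule.finrank_mono (sup_le hM hN)
    have h5 : Module.finrank G.K0 ((M.comap (Psi G v d)).map (S G.K0 n d 0).subtype) =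
        Module.finrank G.K0 (M.comap (Psi G v d)) :=
      (Submodule.equivMapOfInjective _ (Submodule.subtype_injective _) _).finrank_eq.symm
    have h6 : Module.finrank G.K0 ((M.comap (Psi G v d)).map (Psi G v d)) =
        Module.finrank G.K0 (M.comap (Psi G v d)) :=
      (Submodule.equivMapOfInjective _ (psi_inj G hl hv0 d) _).finrank_eq.symm
    rw [Submodule.map_comap_eq, inf_comm] at h6
    rw [h5, ← h6]
    rw [h1, h2] at h3
    omega

end Gn

end FrAux

open FrAux in
theorem tFr : UK.S_Mon → UK.S_Fk → S_Rf → S_Dd → S_Fr := by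
  classical
  intro hMon hFk hRf hDd n c m0 L _ _ G hG hn e jj he hV hgap
  have hl : AlgebraicIndependent G.K0 G.l := hMon.2 n c m0 L G hG
  have hfk := hFk n c m0 L G hG
  -- the counting contradiction
  have bad : ∀ (m1 : ℕ) (v : L), v ∈ G.V0 ^ m1 → v ≠ 0 →
      (∀ d : ℕ, (∀ i, jj i ≤ m1 + d) → ∀ W : Submodule G.K0 (MvPolynomial (Fin n) G.K0),
        (∀ p ∈ W, p.totalDegree ≤ d ∧
          ∃ q : Fin (Module.finrank G.K L) → MvPolynomial (Fin n) G.K0,
          aeval G.l p * v = ∑ i, aeval G.l (q i) * e i ∧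
          ∀ i, q i ≠ 0 → (q i).totalDegree + jj i ≤ m1 + d) →
        Module.finrank G.K0 W + (n - 1 + d).choose (n - 1) ≤ (n + d).choose n) → False := by
    intro m1 v hv hv0 h
    obtain ⟨d, hd, hlt⟩ := hgap m1
    obtain ⟨W, hW, hc⟩ := count G e jj hMon.1 hl he hV m1 d (hfk (m1 + d)).2 v hv0 hv
    have h1 := h d hd W hW
    have h2 : (∑ i, if jj i ≤ m1 + d then (n + (m1 + d - jj i)).choose n else 0) =
        ∑ i, (n + (m1 + d - jj i)).choose n :=
      Finset.sum_congr rfl fun i _ => if_pos (hd i)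
    rw [h2, (hfk (m1 + d)).1] at hc
    omega
  -- the field extension is finite
  have hpos : 0 < Module.finrank G.K L := by
    by_contra h0
    have h00 : Module.finrank G.K L = 0 := by omega
    have hemp : IsEmpty (Fin (Module.finrank G.K L)) := by
      rw [h00]
      infer_instance
    refine bad 0 1 ?_ one_ne_zero ?_
    · rw [pow_zero]
      exact Submodule.one_le.1 le_rfl
    · intro d _ W hW
      have hW0 : W = ⊥ := by
        rw [Submodule.eq_bot_iff]
        intro p hp
        obtain ⟨-, q, hq, -⟩ := hW p hp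
        rw [mul_one, Finset.univ_eq_empty, Finset.sum_empty] at hq
        apply hl
        rw [hq, map_zero]
      rw [hW0, finrank_bot]
      obtain ⟨n', rfl⟩ := Nat.exists_eq_add_of_le' hn
      have h1 : n' + 1 + d = n' + d + 1 := by omega
      rw [h1, Nat.choose_succ_succ, Nat.add_sub_cancel]
      omega
  have hfinK : FiniteDimensional G.K L := Module.finite_of_finrank_pos hpos
  have key : ∀ m : ℕ, ∀ v ∈ G.V0 ^ m,
      ∃ a : Fin (Module.finrank G.K L) → MvPolynomial (Fin n) G.K0,
      v = ∑ i, aeval G.l (a i) * e i ∧ ∀ i, a i ≠ 0 → (a i).totalDegree + jj i ≤ m := by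
    intro m1 v hv
    by_cases hv0 : v = 0
    · refine ⟨0, ?_, fun i h => absurd rfl h⟩
      rw [hv0]
      symm
      exact Finset.sum_eq_zero fun i _ => by rw [Pi.zero_apply, map_zero, zero_mul]
    let B := basisOfLinearIndependentOfCardEqFinrank' e he (Fintype.card_fin _)
    have hB : ∀ i, B i = e i := fun i => by
      simp [B]
    have hκ : v = ∑ i, (B.repr v i : L) * e i := by
      conv_lhs => rw [← B.sum_repr v]
      exact Finset.sum_congr rfl fun i _ => by rw [hB]; rfl
    choose a b hab hb hx using fun i => hRf n c m0 L G hG (B.repr v i : L) (B.repr v i).2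
    by_cases hgood : ∀ i, IsUnit (b i) ∧ (a i ≠ 0 → (a i).totalDegree + jj i ≤ m1)
    · choose u hu using fun i => (hgood i).1.exists_right_inv
      refine ⟨fun i => u i * a i, ?_, ?_⟩
      · rw [hκ]
        refine Finset.sum_congr rfl fun i _ => ?_
        have h1 : aeval G.l (b i) * aeval G.l (u i) = (1 : L) := by
          rw [← map_mul, hu, map_one]
        rw [map_mul, ← hx i]
        congr 1
        calc (B.repr v i : L) = (B.repr v i : L) * (aeval G.l (b i) * aeval G.l (u i)) := by
              rw [h1, mul_one]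
          _ = _ := by ring
      · intro i hi
        have ha : a i ≠ 0 := by
          rintro h0
          refine hi ?_
          change u i * a i = 0
          rw [h0, mul_zero]
        have h1 := (hgood i).2 ha
        obtain ⟨r, -, hr⟩ := isUnit_iff_eq_C_of_isReduced.1
          (IsUnit.of_mul_eq_one (b i) (by rw [mul_comm]; exact hu i) : IsUnit (u i))
        have h2 : (u i * a i).totalDegree ≤ (a i).totalDegree := by
          refine le_trans (totalDegree_mul _ _) ?_
          rw [hr, totalDegree_C, zero_add]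
        exact le_trans (Nat.add_le_add_right h2 _) h1
    · exfalso
      rw [not_forall] at hgood
      obtain ⟨i0, h0⟩ := hgood
      have h : IsUnit (b i0) → a i0 ≠ 0 ∧ m1 < (a i0).totalDegree + jj i0 := by
        intro hu
        by_contra h1
        refine h0 ⟨hu, fun h2 => ?_⟩
        by_contra h3
        exact h1 ⟨h2, by omega⟩
      have hb0 : b i0 ≠ 0 := by
        rintro h1
        exact hb i0 (by rw [h1, map_zero])
      refine bad m1 v hv hv0 fun d hd W hW => ?_
      have hW2 : ∀ p ∈ W, p.totalDegree ≤ d ∧ ∃ q : MvPolynomial (Fin n) G.K0,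
          p * a i0 = b i0 * q ∧ (q ≠ 0 → q.totalDegree + jj i0 ≤ m1 + d) := by
        intro p hp
        obtain ⟨h1, q, hq, hqd⟩ := hW p hp
        refine ⟨h1, q i0, ?_, hqd i0⟩
        have h2 : ∑ i, (aeval G.l p * (B.repr v i : L) - aeval G.l (q i)) * e i = 0 := by
          simp only [sub_mul]
          rw [Finset.sum_sub_distrib, ← hq, sub_eq_zero]
          conv_rhs => rw [hκ, Finset.mul_sum]
          exact Finset.sum_congr rfl fun i _ => by rw [mul_assoc]
        have h3 : ∀ i, aeval G.l p * (B.repr v i : L) - aeval G.l (q i) ∈ G.K := fun i =>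
          sub_mem (mul_mem (aev_mem_K G p) (B.repr v i).2) (aev_mem_K G (q i))
        have h4 := (Fintype.linearIndependent_iff.1 he) (fun i => ⟨_, h3 i⟩) h2 i0
        have h5 : aeval G.l p * (B.repr v i0 : L) = aeval G.l (q i0) :=
          sub_eq_zero.1 (congrArg Subtype.val h4)
        apply hl
        rw [map_mul, map_mul, ← hx i0, ← h5]
        ring
      by_cases hj : jj i0 ≤ m1
      · refine hDd n G.K0 (a i0) (b i0) (m1 - jj i0) d hn (hab i0) hb0 (fun hu => ?_) W
          (fun p hp => ?_)
        · have := (h hu).2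
          omega
        · obtain ⟨h1, q, hq, hqd⟩ := hW2 p hp
          refine ⟨h1, q, hq, ?_⟩
          by_cases hq0 : q = 0
          · exact Or.inl hq0
          · right
            have := hqd hq0
            omega
      · by_cases hc : IsUnit (b i0) ∧ (a i0).totalDegree = 0
        · obtain ⟨hu, ha0⟩ := hc
          have hne := (h hu).1
          refine dd_const hDd hn d W (fun p hp => (hW2 p hp).1) (fun p hp hp0 => ?_)
          obtain ⟨h1, q, hq, hqd⟩ := hW2 p hp
          have hq0 : q ≠ 0 := by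
            rintro h2
            rw [h2, mul_zero] at hq
            rcases mul_eq_zero.1 hq with h3 | h3
            · exact hp0 h3
            · exact hne h3
          have h2 := hqd hq0
          have h3 := deg_le hu hne hp0 hq
          omega
        · refine hDd n G.K0 (a i0) (b i0) 0 d hn (hab i0) hb0 (fun hu => ?_) W
            (fun p hp => ?_)
          · by_contra h1
            exact hc ⟨hu, by omega⟩
          · obtain ⟨h1, q, hq, hqd⟩ := hW2 p hp
            refine ⟨h1, q, hq, ?_⟩
            by_cases hq0 : q = 0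
            · exact Or.inl hq0
            · right
              have := hqd hq0
              omega
  refine ⟨key, fun m => ?_⟩
  have h1 : G.V0 ^ m = LinearMap.range (FrAux.Lam G e jj m) :=
    le_antisymm (fun v hv => (mem_lam G e jj).2 (key m v hv)) (lam_le G e jj hV m)
  rw [← (hfk m).1, h1]
  exact finrank_lam G e jj hMon.1 hl he m

end Pool.Agent.Lib.MP_776403_ag.SD.CE
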