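import Pool.Agent.Lib.MP_776403_ag.SD.CE.Spec
import Pool.Agent.Lib.MP_776403_ag.SD.UK.G2

/-!
# Equality in the Castelnuovo bound: the field data with the dehomogenization map (`S_G1p`)
-/

set_option autoImplicit false

open MvPolynomial

noncomputable section

namespace Pool.Agent.Lib.MP_776403_ag.SD.CE

open UK

namespace G1pAux

theorem finrank_map_eq {S A B : Type} [AddCommGroup S] [Module ℂ S] [AddCommGroup A] [Module ℂ A]
    [AddCommGroup B] [Module ℂ B] (H : Submodule ℂ S) (f : S →ₗ[ℂ] A) (g : S →ₗ[ℂ] B)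
    (h : ∀ x ∈ H, f x = 0 ↔ g x = 0) :
    Module.finrank ℂ (H.map f) = Module.finrank ℂ (H.map g) := by
  have hf : H.map f = LinearMap.range (f.domRestrict H) := by
    ext y
    constructor
    · rintro ⟨x, hx, rfl⟩
      exact ⟨⟨x, hx⟩, rfl⟩
    · rintro ⟨⟨x, hx⟩, rfl⟩
      exact ⟨x, hx, rfl⟩
  have hg : H.map g = LinearMap.range (g.domRestrict H) := by
    ext y
    constructor
    · rintro ⟨x, hx, rfl⟩
      exact ⟨⟨x, hx⟩, rfl⟩
    · rintro ⟨⟨x, hx⟩, rfl⟩
      exact ⟨x, hx, rfl⟩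
  have hk : LinearMap.ker (f.domRestrict H) = LinearMap.ker (g.domRestrict H) := by
    ext ⟨x, hx⟩
    exact h x hx
  rw [hf, hg, ← LinearEquiv.finrank_eq (LinearMap.quotKerEquivRange (f.domRestrict H)),
    ← LinearEquiv.finrank_eq (LinearMap.quotKerEquivRange (g.domRestrict H)), hk]

theorem scale {N : ℕ} {K : Type} [Field K] [Algebra ℂ K] (φ : Sx N →ₐ[ℂ] K) (a : K) (m : ℕ)
    (F : Sx N) (hF : F.IsHomogeneous m) :
    aeval (fun j => a * φ (X j)) F = a ^ m * φ F := by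
  have h1 : φ F = aeval (fun j => φ (X j)) F := by
    have := MvPolynomial.aeval_unique φ
    exact congrFun (congrArg DFunLike.coe this) F
  rw [h1, aeval_def, aeval_def, eval₂_eq', eval₂_eq', Finset.mul_sum]
  refine Finset.sum_congr rfl fun d hd => ?_
  have hd1 : ∑ i, d i = m := by
    have := hF (mem_support_iff.1 hd)
    rw [← this, Finsupp.weight_apply, Finsupp.sum_fintype]
    · simp
    · simp
  simp only [mul_pow]
  rw [Finset.prod_mul_distrib, Finset.prod_pow_eq_pow_sum, hd1]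
  ring

theorem inj (n c : ℕ) : Function.Injective
    (Sum.elim (fun _ : Unit => (Sum.inl 0 : Fin (n + 1) ⊕ Fin c))
      (Sum.elim (fun i : Fin n => (Sum.inl i.succ : Fin (n + 1) ⊕ Fin c))
        fun j : Fin c => (Sum.inr j : Fin (n + 1) ⊕ Fin c))) := by
  rintro (⟨⟩ | i | j) (⟨⟩ | i' | j') h
  · rfl
  · exact absurd (Sum.inl.inj h) (Fin.succ_ne_zero _).symm
  · exact absurd h Sum.inl_ne_inr
  · exact absurd (Sum.inl.inj h) (Fin.succ_ne_zero _)
  · exact congrArg (fun k => Sum.inr (Sum.inl k)) (Fin.succ_injective _ (Sum.inl.inj h))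
  · exact absurd h Sum.inl_ne_inr
  · exact absurd h Sum.inr_ne_inl
  · exact absurd h Sum.inr_ne_inl
  · exact congrArg (fun k => Sum.inr (Sum.inr k)) (Sum.inr.inj h)

variable {N : ℕ} {I : Ideal (Sx N)} {K : Type} [Field K] [Algebra ℂ K] {φ : Sx N →ₐ[ℂ] K}
  {n c m0 : ℕ} {w : Fin (n + 1) → Sx N} {u : Fin c → Sx N}

theorem main (hφ : ∀ F, φ F = 0 ↔ F ∈ I) (hGB : S_GB) (hnc : n + c = N) (hm0 : 1 ≤ m0)
    (hw : ∀ i, (w i).IsHomogeneous 1) (hu : ∀ j, (u j).IsHomogeneous 1)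
    (hwi : AlgebraicIndependent ℂ fun i => φ (w i))
    (hlin : LinearIndependent ℂ (fun o : Fin (n + 1) ⊕ Fin c => φ (Sum.elim w u o)))
    (hspan : ∀ F : Sx N, F.IsHomogeneous 1 → F ∈ Submodule.span ℂ (Set.range (Sum.elim w u)))
    (hnoe : ∀ F : Sx N, F.IsHomogeneous m0 → ∃ A : Fin (n + 1) → Sx N,
        (∀ i, (A i).IsHomogeneous (m0 - 1)) ∧ F - ∑ i, w i * A i ∈ I)
    (hfin : ∀ m, Module.finrank ℂ ((homogeneousSubmodule (Fin (N + 1)) ℂ m).map φ.toLinearMap) =
      Module.finrank ℂ (gr I m)) :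
    ∃ (n c m0 : ℕ) (w : Fin (n + 1) → Sx N) (u : Fin c → Sx N) (L : Type) (_ : Field L)
      (_ : Algebra ℂ L) (G : Gen n c L) (π : Sx N →ₐ[ℂ] L), n + c = N ∧ G.Ok m0 ∧
      (∀ i, (w i).IsHomogeneous 1) ∧ (∀ j, (u j).IsHomogeneous 1) ∧
      LinearIndependent ℂ (Sum.elim w u) ∧
      (∀ F : Sx N, F.IsHomogeneous 1 → F ∈ Submodule.span ℂ (Set.range (Sum.elim w u))) ∧
      π (w 0) = 1 ∧ (∀ i : Fin n, π (w i.succ) = G.y i) ∧ (∀ j, π (u j) = G.z j) ∧
      (∀ (m : ℕ) (F : Sx N), F.IsHomogeneous m → (π F = 0 ↔ F ∈ I)) ∧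
      ∀ m : ℕ, (homogeneousSubmodule (Fin (N + 1)) ℂ m).map π.toLinearMap = G.V ^ m ∧
        Module.finrank ℂ (G.V ^ m : Submodule ℂ L) = Module.finrank ℂ (gr I m) := by
  have hx0 : φ (w 0) ≠ 0 := hwi.ne_zero 0
  set a : K := (φ (w 0))⁻¹ with ha
  have ha0 : a ≠ 0 := inv_ne_zero hx0
  set πQ : Sx N →ₐ[ℂ] K := aeval (fun j => a * φ (X j)) with hπQ
  have hπ : ∀ (m : ℕ) (F : Sx N), F.IsHomogeneous m → πQ F = a ^ m * φ F := fun m F hF =>
    scale φ a m F hF
  have hπ1 : ∀ F : Sx N, F.IsHomogeneous 1 → πQ F = a * φ F := fun F hF => by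
    rw [hπ 1 F hF, pow_one]
  have hπw0 : πQ (w 0) = 1 := by
    rw [hπ1 _ (hw 0)]
    exact inv_mul_cancel₀ hx0
  have hπ0 : ∀ (m : ℕ) (F : Sx N), F.IsHomogeneous m → (πQ F = 0 ↔ F ∈ I) := by
    intro m F hF
    rw [hπ m F hF, ← hφ]
    constructor
    · intro h
      exact (mul_eq_zero.1 h).resolve_left (pow_ne_zero _ ha0)
    · intro h
      rw [h, mul_zero]
  -- the field `E`
  set E : IntermediateField ℂ K := IntermediateField.adjoin ℂ
    (Set.range (fun i : Fin n => πQ (w i.succ)) ∪ Set.range fun j : Fin c => πQ (u j)) with hE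
  have hyE : ∀ i : Fin n, πQ (w i.succ) ∈ E := fun i =>
    IntermediateField.subset_adjoin ℂ _ (Or.inl ⟨i, rfl⟩)
  have hzE : ∀ j : Fin c, πQ (u j) ∈ E := fun j =>
    IntermediateField.subset_adjoin ℂ _ (Or.inr ⟨j, rfl⟩)
  have hwE : ∀ i, πQ (w i) ∈ E := by
    intro i
    rcases Fin.eq_zero_or_eq_succ i with rfl | ⟨i, rfl⟩
    · rw [hπw0]
      exact E.one_mem
    · exact hyE i
  have hXE : ∀ j, πQ (X j) ∈ E := by
    intro j
    have h1 := hspan (X j) (isHomogeneous_X ℂ j)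
    have h2 : Submodule.span ℂ (Set.range (Sum.elim w u)) ≤
        (E.toSubalgebra.toSubmodule).comap πQ.toLinearMap := by
      rw [Submodule.span_le]
      rintro _ ⟨o, rfl⟩
      rcases o with i | j
      · exact hwE i
      · exact hzE j
    exact h2 h1
  set πE : Sx N →ₐ[ℂ] E := aeval (fun j => (⟨πQ (X j), hXE j⟩ : E)) with hπE
  have hval : ∀ F, ((πE F : E) : K) = πQ F := by
    intro F
    have h : E.val.comp πE = πQ := by
      refine MvPolynomial.algHom_ext fun j => ?_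
      rw [AlgHom.comp_apply, hπE, aeval_X]
      rfl
    exact congrFun (congrArg DFunLike.coe h) F
  have hπE0 : ∀ (m : ℕ) (F : Sx N), F.IsHomogeneous m → (πE F = 0 ↔ F ∈ I) := by
    intro m F hF
    rw [← hπ0 m F hF, ← hval F]
    exact (ZeroMemClass.coe_eq_zero).symm
  have hπEw0 : πE (w 0) = 1 := Subtype.ext (by rw [hval, hπw0]; rfl)
  set y : Fin n → E := fun i => πE (w i.succ) with hy
  set z : Fin c → E := fun j => πE (u j) with hz
  have hH1 : homogeneousSubmodule (Fin (N + 1)) ℂ 1 =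
      Submodule.span ℂ (Set.range (Sum.elim w u)) := by
    apply le_antisymm
    · intro F hF
      exact hspan F ((mem_homogeneousSubmodule 1 F).1 hF)
    · rw [Submodule.span_le]
      rintro _ ⟨o, rfl⟩
      rcases o with i | j
      · exact (mem_homogeneousSubmodule 1 _).2 (hw i)
      · exact (mem_homogeneousSubmodule 1 _).2 (hu j)
  have hV1 : (homogeneousSubmodule (Fin (N + 1)) ℂ 1).map πE.toLinearMap =
      Submodule.span ℂ (insert 1 (Set.range y ∪ Set.range z)) := by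
    rw [hH1, Submodule.map_span]
    congr 1
    ext q
    constructor
    · rintro ⟨_, ⟨o, rfl⟩, rfl⟩
      rcases o with i | j
      · rcases Fin.eq_zero_or_eq_succ i with rfl | ⟨i, rfl⟩
        · exact Or.inl hπEw0
        · exact Or.inr (Or.inl ⟨i, rfl⟩)
      · exact Or.inr (Or.inr ⟨j, rfl⟩)
    · rintro (rfl | ⟨i, rfl⟩ | ⟨j, rfl⟩)
      · exact ⟨_, ⟨Sum.inl 0, rfl⟩, hπEw0⟩
      · exact ⟨_, ⟨Sum.inl i.succ, rfl⟩, rfl⟩
      · exact ⟨_, ⟨Sum.inr j, rfl⟩, rfl⟩
  have hVm : ∀ m : ℕ, (homogeneousSubmodule (Fin (N + 1)) ℂ m).map πE.toLinearMap =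
      Submodule.span ℂ (insert 1 (Set.range y ∪ Set.range z)) ^ m := by
    intro m
    rw [← homogeneousSubmodule_one_pow, Submodule.map_pow, hV1]
  have hindy : AlgebraicIndependent ℂ y := by
    have h1 := hGB n K (fun i => φ (w i)) hwi
    refine AlgebraicIndependent.of_comp E.val ?_
    have h2 : (E.val ∘ y) = fun i : Fin n => φ (w i.succ) / φ (w 0) := by
      funext i
      change ((πE (w i.succ) : E) : K) = _
      rw [hval, hπ1 _ (hw _), div_eq_inv_mul]
    rw [h2]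
    exact h1
  have hlinE : LinearIndependent ℂ (Sum.elim (fun _ : Unit => (1 : E)) (Sum.elim y z)) := by
    have h1 : LinearIndependent ℂ (fun o : Fin (n + 1) ⊕ Fin c => a * φ (Sum.elim w u o)) :=
      hlin.map' (LinearMap.mulLeft ℂ a) (LinearMap.ker_eq_bot.2 (mul_right_injective₀ ha0))
    have h3 := h1.comp _ (inj n c)
    refine LinearIndependent.of_comp E.val.toLinearMap ?_
    have h4 : (E.val.toLinearMap ∘ (Sum.elim (fun _ : Unit => (1 : E)) (Sum.elim y z))) =
        (fun o : Fin (n + 1) ⊕ Fin c => a * φ (Sum.elim w u o)) ∘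
          (Sum.elim (fun _ : Unit => Sum.inl 0)
            (Sum.elim (fun i : Fin n => Sum.inl i.succ) fun j : Fin c => Sum.inr j)) := by
      funext o
      rcases o with _ | i | j
      · exact (inv_mul_cancel₀ hx0).symm
      · change ((πE (w i.succ) : E) : K) = a * φ (w i.succ)
        rw [hval, hπ1 _ (hw _)]
      · change ((πE (u j) : E) : K) = a * φ (u j)
        rw [hval, hπ1 _ (hu _)]
    rw [h4]
    exact h3
  have hnoeE : Submodule.span ℂ (insert 1 (Set.range y ∪ Set.range z)) ^ m0 ≤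
      Submodule.span ℂ (insert 1 (Set.range y)) *
        Submodule.span ℂ (insert 1 (Set.range y ∪ Set.range z)) ^ (m0 - 1) := by
    rw [← hVm, ← hVm]
    rintro q ⟨F, hF, rfl⟩
    have hF' := (mem_homogeneousSubmodule m0 F).1 hF
    obtain ⟨A, hA, hFA⟩ := hnoe F hF'
    have hhom : (F - ∑ i, w i * A i).IsHomogeneous m0 := by
      refine hF'.sub (IsHomogeneous.sum _ _ _ fun i _ => ?_)
      have := (hw i).mul (hA i)
      have e : 1 + (m0 - 1) = m0 := by omega
      rwa [e] at this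
    have h1 := (hπE0 m0 _ hhom).2 hFA
    rw [map_sub, map_sum, sub_eq_zero] at h1
    have h2 : πE.toLinearMap F = ∑ i, πE (w i) * πE (A i) := by
      change πE F = _
      rw [h1]
      exact Finset.sum_congr rfl fun i _ => map_mul _ _ _
    rw [h2]
    refine Submodule.sum_mem _ fun i _ => Submodule.mul_mem_mul ?_
      ⟨A i, (mem_homogeneousSubmodule _ _).2 (hA i), rfl⟩
    rcases Fin.eq_zero_or_eq_succ i with rfl | ⟨i, rfl⟩
    · rw [hπEw0]
      exact Submodule.subset_span (Or.inl rfl)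
    · exact Submodule.subset_span (Or.inr ⟨i, rfl⟩)
  have hgenE : IntermediateField.adjoin ℂ (Set.range y ∪ Set.range z) = ⊤ := by
    apply IntermediateField.map_injective E.val
    have him1 : E.val '' (Set.range y ∪ Set.range z) =
        (Set.range (fun i : Fin n => πQ (w i.succ)) ∪ Set.range fun j : Fin c => πQ (u j)) := by
      rw [Set.image_union, ← Set.range_comp, ← Set.range_comp]
      congr 1
      · congr 1
        funext i
        exact hval _
      · congr 1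
        funext j
        exact hval _
    rw [IntermediateField.adjoin_map, him1, ← AlgHom.fieldRange_eq_map,
      IntermediateField.fieldRange_val]
  -- `L`
  refine ⟨n, c, m0, w, u, G2Aux.LL n c E, inferInstance, inferInstance, G2Aux.GG y z,
    (G2Aux.io n c E).comp πE, hnc, ⟨?_, G2Aux.indt y z, ?_, hm0, G2Aux.noe y z m0 hnoeE,
      G2Aux.gen y z hgenE⟩, hw, hu, ?_, hspan, ?_, fun i => rfl, fun j => rfl, ?_, ?_⟩
  · exact hindy.map' (f := G2Aux.io n c E) (G2Aux.io_inj n c E)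
  · have h1 := hlinE.map' (G2Aux.io n c E).toLinearMap
      (LinearMap.ker_eq_bot.mpr (G2Aux.io_inj n c E))
    have h2 : (Sum.elim (fun _ : Unit => (1 : G2Aux.LL n c E))
        (Sum.elim (G2Aux.GG y z).y (G2Aux.GG y z).z)) =
        (G2Aux.io n c E).toLinearMap ∘ (Sum.elim (fun _ : Unit => (1 : E)) (Sum.elim y z)) := by
      funext o
      rcases o with o | o | o
      · exact (map_one (G2Aux.io n c E)).symm
      · rfl
      · rfl
    rw [h2]
    exact h1
  · exact LinearIndependent.of_comp φ.toLinearMap hlin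
  · rw [AlgHom.comp_apply, hπEw0, map_one]
  · intro m F hF
    rw [AlgHom.comp_apply, ← hπE0 m F hF]
    exact map_eq_zero_iff _ (G2Aux.io_inj n c E)
  · intro m
    have h1 : (homogeneousSubmodule (Fin (N + 1)) ℂ m).map
        ((G2Aux.io n c E).comp πE).toLinearMap = (G2Aux.GG y z).V ^ m := by
      rw [G2Aux.Vpow_eq, ← hVm m, ← Submodule.map_comp]
      rfl
    refine ⟨h1, ?_⟩
    rw [← h1, ← hfin m]
    refine finrank_map_eq _ _ _ fun F hF => ?_
    have hF' := (mem_homogeneousSubmodule m F).1 hF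
    change (G2Aux.io n c E) (πE F) = 0 ↔ φ F = 0
    rw [map_eq_zero_iff _ (G2Aux.io_inj n c E), hπE0 m F hF', hφ]

end G1pAux

theorem tG1p : UK.S_GA → UK.S_GB → S_G1p := by
  intro hGA hGB N I hp hI hl
  obtain ⟨n, c, m0, w, u, hnc, hm0, hw, hu, hwi, hlin, hspan, hnoe⟩ := hGA N I hp hI hl
  have hinj : Function.Injective
      (IsScalarTower.toAlgHom ℂ (Sx N ⧸ I) (FractionRing (Sx N ⧸ I))) :=
    IsFractionRing.injective (Sx N ⧸ I) (FractionRing (Sx N ⧸ I))
  refine G1pAux.main (I := I) (K := FractionRing (Sx N ⧸ I))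
    (φ := (IsScalarTower.toAlgHom ℂ (Sx N ⧸ I) (FractionRing (Sx N ⧸ I))).comp
      (Ideal.Quotient.mkₐ ℂ I)) (fun F => ?_) hGB hnc hm0 hw hu ?_ ?_ hspan hnoe fun m => ?_
  · rw [AlgHom.comp_apply, map_eq_zero_iff _ hinj]
    exact Ideal.Quotient.eq_zero_iff_mem
  · exact hwi.map' (f := IsScalarTower.toAlgHom ℂ (Sx N ⧸ I) (FractionRing (Sx N ⧸ I))) hinj
  · exact hlin.map' (IsScalarTower.toAlgHom ℂ (Sx N ⧸ I) (FractionRing (Sx N ⧸ I))).toLinearMap
      (LinearMap.ker_eq_bot.2 hinj)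
  · have h : gr I m = (homogeneousSubmodule (Fin (N + 1)) ℂ m).map
        (Ideal.Quotient.mkₐ ℂ I).toLinearMap := rfl
    rw [h]
    refine G1pAux.finrank_map_eq _ _ _ fun F _ => ?_
    change (IsScalarTower.toAlgHom ℂ (Sx N ⧸ I) (FractionRing (Sx N ⧸ I)))
      (Ideal.Quotient.mk I F) = 0 ↔ Ideal.Quotient.mk I F = 0
    exact map_eq_zero_iff _ hinj

end Pool.Agent.Lib.MP_776403_ag.SD.CE
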