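import Pool.Agent.Lib.MP_776403_ag.SD.CE.Spec
import Pool.Agent.Lib.MP_776403_ag.SD.M.PC

/-!
# SD/CE, module Ga: gap between two Hilbert functions with equal first two coefficients
-/

set_option autoImplicit false

open MvPolynomial

noncomputable section

namespace Pool.Agent.Lib.MP_776403_ag.SD.CE

open UK

namespace GaAux

/-- `1 - X` is not zero -/
lemma u_ne : (1 - PowerSeries.X : PowerSeries ℤ) ≠ 0 := by
  intro h0
  have := congrArg PowerSeries.constantCoeff h0
  simp at this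

/-- a polynomial with a double root at `1` -/
lemma dbl (P : Polynomial ℤ) (h1 : P.eval 1 = 0) (h2 : (Polynomial.derivative P).eval 1 = 0) :
    ∃ r : Polynomial ℤ, P = (1 - Polynomial.X) ^ 2 * r := by
  obtain ⟨s, hs⟩ := Polynomial.dvd_iff_isRoot.2 h1
  have h3 : s.eval 1 = 0 := by
    rw [hs, Polynomial.derivative_mul, Polynomial.eval_add, Polynomial.eval_mul,
      Polynomial.eval_mul] at h2
    simpa using h2
  obtain ⟨r, hr⟩ := Polynomial.dvd_iff_isRoot.2 h3
  refine ⟨r, ?_⟩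
  rw [hs, hr, Polynomial.C_1]
  ring

/-- eventually small coefficients -/
lemma small (hB : S_NBin) (k : ℕ) (F : PowerSeries ℤ) (r : Polynomial ℤ)
    (h : (1 - PowerSeries.X) ^ k * F = (r : PowerSeries ℤ)) (m1 : ℕ) :
    ∀ᶠ d : ℕ in Filter.atTop, |PowerSeries.coeff (m1 + d) F| < ((k + d).choose k : ℤ) := by
  rcases k with _ | k
  · rw [pow_zero, one_mul] at h
    obtain ⟨M, hM⟩ := Filter.eventually_atTop.1 (ev_zero r)
    filter_upwards [Filter.eventually_ge_atTop M] with d hd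
    rw [h, hM (m1 + d) (by omega), abs_zero, Nat.choose_zero_right]
    norm_num
  · obtain ⟨C, hC0, hC⟩ := (pc1 k F r h).exists_nonneg
    obtain ⟨M, hM⟩ := Filter.eventually_atTop.1 hC
    filter_upwards [Filter.eventually_ge_atTop M,
      hB (k + 1) (C * ((m1 : ℤ) + 1) ^ k) (by omega)] with d hd hd2
    rw [Nat.add_sub_cancel] at hd2
    have h1 := hM (m1 + d) (by omega)
    have h2 : ((m1 + d : ℕ) : ℤ) + 1 ≤ ((m1 : ℤ) + 1) * ((d : ℤ) + 1) := by
      push_cast
      have : (0 : ℤ) ≤ (m1 : ℤ) * d := by positivity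
      nlinarith
    have h3 : (((m1 + d : ℕ) : ℤ) + 1) ^ k ≤ ((m1 : ℤ) + 1) ^ k * ((d : ℤ) + 1) ^ k := by
      rw [← mul_pow]
      exact pow_le_pow_left₀ (by positivity) h2 k
    calc |PowerSeries.coeff (m1 + d) F| ≤ C * (((m1 + d : ℕ) : ℤ) + 1) ^ k := h1
      _ ≤ C * (((m1 : ℤ) + 1) ^ k * ((d : ℤ) + 1) ^ k) := mul_le_mul_of_nonneg_left h3 hC0
      _ = C * ((m1 : ℤ) + 1) ^ k * ((d : ℤ) + 1) ^ k := by ring
      _ < ((d + (k + 1)).choose (k + 1) : ℤ) := hd2
      _ = ((k + 1 + d).choose (k + 1) : ℤ) := by rw [Nat.add_comm d]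

end GaAux

open GaAux

theorem tGa (hB : S_NBin) : S_Ga := by
  intro N c n D f q0 jj hNc hn hQP hq1 hqd m1
  obtain ⟨k, rfl⟩ : ∃ k, n = k + 1 := ⟨n - 1, by omega⟩
  set p : Polynomial ℤ := ∑ i, Polynomial.X ^ (jj i) with hp
  set g : PowerSeries ℤ := ∑ i, PowerSeries.X ^ (jj i) *
    PowerSeries.mk (fun j => (Nat.choose (k + 1 + j) (k + 1) : ℤ)) with hg
  have hf : (1 - PowerSeries.X) ^ (k + 1 + 1) * ps f = (q0 : PowerSeries ℤ) := by
    unfold QP at hQP
    have e : N + 1 = c + (k + 1 + 1) := by omega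
    rw [e, pow_add, mul_assoc, Polynomial.coe_mul, Polynomial.coe_pow, Polynomial.coe_sub,
      Polynomial.coe_one, Polynomial.coe_X] at hQP
    exact mul_left_cancel₀ (pow_ne_zero c u_ne) hQP
  have hgp : (1 - PowerSeries.X) ^ (k + 1 + 1) * g = (p : PowerSeries ℤ) := by
    rw [hg, Finset.mul_sum, hp]
    have e : ((∑ i, Polynomial.X ^ (jj i) : Polynomial ℤ) : PowerSeries ℤ) =
        ∑ i, (PowerSeries.X : PowerSeries ℤ) ^ (jj i) := by
      rw [← Polynomial.coeToPowerSeries.ringHom_apply, map_sum]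
      refine Finset.sum_congr rfl fun i _ => ?_
      rw [Polynomial.coeToPowerSeries.ringHom_apply, Polynomial.coe_pow, Polynomial.coe_X]
    rw [e]
    refine Finset.sum_congr rfl fun i _ => ?_
    rw [mul_left_comm, inv_pow (k + 1), mul_one]
  have hp1 : p.eval 1 = (D : ℤ) := by
    rw [hp, Polynomial.eval_finsetSum]
    simp
  have hpd : (Polynomial.derivative p).eval 1 = ((∑ i, jj i : ℕ) : ℤ) := by
    rw [hp, Polynomial.derivative_sum, Polynomial.eval_finsetSum, Nat.cast_sum]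
    refine Finset.sum_congr rfl fun i _ => ?_
    rw [Polynomial.derivative_X_pow, Polynomial.eval_mul, Polynomial.eval_pow, Polynomial.eval_X,
      one_pow, mul_one, Polynomial.eval_C]
  obtain ⟨r, hr⟩ := dbl (q0 - p) (by rw [Polynomial.eval_sub, hq1, hp1, sub_self])
    (by rw [Polynomial.derivative_sub, Polynomial.eval_sub, hqd, hpd, sub_self])
  have hF : (1 - PowerSeries.X) ^ k * (ps f - g) = (r : PowerSeries ℤ) := by
    have h1 : (1 - PowerSeries.X) ^ 2 * ((1 - PowerSeries.X) ^ k * (ps f - g)) =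
        (1 - PowerSeries.X) ^ 2 * (r : PowerSeries ℤ) := by
      have h2 : ((q0 - p : Polynomial ℤ) : PowerSeries ℤ) =
          (((1 - Polynomial.X) ^ 2 * r : Polynomial ℤ) : PowerSeries ℤ) := by rw [hr]
      rw [Polynomial.coe_sub, Polynomial.coe_mul, Polynomial.coe_pow, Polynomial.coe_sub,
        Polynomial.coe_one, Polynomial.coe_X, ← hf, ← hgp] at h2
      rw [← h2]
      ring
    exact mul_left_cancel₀ (pow_ne_zero 2 u_ne) h1
  obtain ⟨d, hd1, hd2⟩ := ((small hB k (ps f - g) r hF m1).and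
    (Filter.eventually_ge_atTop (∑ i, jj i))).exists
  have hj : ∀ i, jj i ≤ m1 + d := fun i =>
    (Finset.single_le_sum (fun i _ => Nat.zero_le (jj i)) (Finset.mem_univ i)).trans (by omega)
  refine ⟨d, hj, ?_⟩
  have hc : PowerSeries.coeff (m1 + d) (ps f - g) =
      (f (m1 + d) : ℤ) - ∑ i, ((k + 1 + (m1 + d - jj i)).choose (k + 1) : ℤ) := by
    rw [map_sub, ps, PowerSeries.coeff_mk, hg, map_sum]
    congr 1
    refine Finset.sum_congr rfl fun i _ => ?_
    rw [PowerSeries.coeff_X_pow_mul', if_pos (hj i), PowerSeries.coeff_mk]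
  rw [hc] at hd1
  have h3 := (abs_lt.1 hd1).2
  have e1 : k + 1 - 1 = k := rfl
  rw [e1]
  zify
  push_cast at h3 ⊢
  linarith

end Pool.Agent.Lib.MP_776403_ag.SD.CE
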