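import Pool.Agent.Lib.MP_776403_ag.SD.CE.CEc
import Pool.Agent.Lib.MP_776403_ag.SD.E2.HF

/-!
# The number of quadrics if `deg X = c + 2` and `q0'(1) = c + 2` (helper57)
-/

set_option autoImplicit false

open MvPolynomial

noncomputable section

namespace Pool.Agent.Lib.MP_776403_ag.SD.CE

/-- `deg X = c + 2`, `q0'(1) = c + 2`: at least `binom (c + 1) 2 - 1` quadrics. -/
theorem tI2 (N c : ℕ) (I : Ideal (Sx N)) (q0 : Polynomial ℤ) (hc : 1 ≤ c) (hcN : c + 1 ≤ N)
    (hI : I.IsPrime) (hHom : IsHom I) (hlin : ∀ F ∈ I, F.IsHomogeneous 1 → F = 0)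
    (hQP : QP N c (fun k => Module.finrank ℂ (gr I k)) q0)
    (hq : q0.eval 1 = ((c + 2 : ℕ) : ℤ))
    (hq2 : (Polynomial.derivative q0).eval 1 = ((c + 2 : ℕ) : ℤ)) :
    Nat.choose (c + 1) 2 ≤ Module.finrank ℂ (E2.I2 I) + 1 := by
  classical
  have hsum : ∑ j ∈ Finset.range (c + 2), (c + 2 - 1 - c * j) = c + 2 := by
    have h1 : Finset.range 2 ⊆ Finset.range (c + 2) := by
      intro a ha
      rw [Finset.mem_range] at ha ⊢
      omega
    rw [← Finset.sum_subset h1]
    · rw [Finset.sum_range_succ, Finset.sum_range_one, mul_zero, mul_one]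
      omega
    · intro a _ ha
      rw [Finset.mem_range] at ha
      have h2 : c * 2 ≤ c * a := Nat.mul_le_mul_left c (by omega)
      omega
  obtain ⟨jj, hcnt, hHF⟩ := ceC N c (c + 2) I q0 hc hcN (by omega) hI hHom hlin hQP hq
    (by rw [hsum]; exact hq2)
  obtain ⟨n, hn⟩ : ∃ n, N = n + c := ⟨N - c, by omega⟩
  refine E2.i2_ge n c I hn ?_
  rw [hHF 2]
  have hNc : N - c = n := by omega
  rw [hNc]
  have h0 := hcnt 0
  have h1 := hcnt 1
  have h2 := hcnt 2
  have hch : n + 1 ≤ (n + 2).choose 2 := by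
    rw [Nat.choose_succ_succ' (n + 1) 1, Nat.choose_one_right]
    omega
  have h3 : ∀ i, (if jj i ≤ 2 then (n + (2 - jj i)).choose n else 0) =
      (if jj i ≤ 2 then 1 else 0) + (n * (if jj i ≤ 1 then 1 else 0) +
        ((n + 2).choose 2 - (n + 1)) * (if jj i ≤ 0 then 1 else 0)) := by
    intro i
    rcases Nat.lt_or_ge 2 (jj i) with h | h
    · rw [if_neg (by omega), if_neg (by omega), if_neg (by omega), if_neg (by omega), mul_zero,
        mul_zero, add_zero, add_zero]
    · interval_cases (jj i)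
      · simp only [Nat.zero_le, if_true, Nat.sub_zero, mul_one]
        have h5 : (n + 2).choose n = (n + 2).choose 2 := Nat.choose_symm_add
        rw [h5]
        omega
      · have h5 : (n + (2 - 1)).choose n = n + 1 := by
          rw [show 2 - 1 = 1 from rfl, Nat.choose_symm_add, Nat.choose_one_right]
        rw [if_pos (by omega), if_pos (by omega), if_pos (by omega), if_neg (by omega), h5]
        omega
      · rw [if_pos (by omega), if_pos (by omega), if_neg (by omega), if_neg (by omega), Nat.sub_self,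
          Nat.add_zero, Nat.choose_self]
        omega
  rw [Finset.sum_congr rfl fun i _ => h3 i, Finset.sum_add_distrib, Finset.sum_add_distrib,
    ← Finset.mul_sum, ← Finset.mul_sum, ← Finset.card_filter, ← Finset.card_filter,
    ← Finset.card_filter, h0, h1, h2]
  have e0 : min (c + 2) (0 * c + 1) = 1 := by omega
  have e1 : min (c + 2) (1 * c + 1) = c + 1 := by omega
  have e2 : min (c + 2) (2 * c + 1) = c + 2 := by omega
  rw [e0, e1, e2, mul_one]
  have h6 : n * (c + 1) = c * n + n := by ring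
  have h7 : c * (n + 1) = c * n + c := by ring
  rw [h6, h7]
  omega

end Pool.Agent.Lib.MP_776403_ag.SD.CE
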