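import Pool.Agent.Lib.MP_776403_ag.SD.CE.Spec

/-!
# Equality in the Castelnuovo bound: reduced fractions (`S_Rf`)
-/

set_option autoImplicit false

open MvPolynomial

noncomputable section

namespace Pool.Agent.Lib.MP_776403_ag.SD.CE

open UK

theorem tRf : S_Rf := by
  intro n c m0 L _ _ G _ x hx
  have h1 : G.K ≤ (IntermediateField.adjoin G.K0 (Set.range G.l)).restrictScalars ℂ := by
    refine IntermediateField.adjoin_le_iff.2 ?_
    rintro _ ⟨p | i, rfl⟩
    · exact IntermediateField.algebraMap_mem (IntermediateField.adjoin G.K0 (Set.range G.l))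
        (⟨G.t p, IntermediateField.subset_adjoin ℂ _ ⟨p, rfl⟩⟩ : G.K0)
    · exact IntermediateField.subset_adjoin G.K0 _ ⟨i, rfl⟩
  have h2 : x ∈ IntermediateField.adjoin G.K0 (Set.range G.l) := h1 hx
  obtain ⟨r, s, hs, hrs⟩ : ∃ r s : MvPolynomial (Fin n) G.K0, aeval G.l s ≠ 0 ∧
      x * aeval G.l s = aeval G.l r := by
    obtain ⟨r, s, h⟩ := (IntermediateField.mem_adjoin_range_iff G.K0 G.l x).1 h2
    by_cases hs : aeval G.l s = 0
    · refine ⟨0, 1, by rw [map_one]; exact one_ne_zero, ?_⟩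
      rw [h, hs, div_zero, zero_mul, map_zero]
    · exact ⟨r, s, hs, by rw [h, div_mul_cancel₀ _ hs]⟩
  have hs0 : s ≠ 0 := by
    rintro rfl
    exact hs (map_zero _)
  obtain ⟨a, b, c', hab, ha, hb⟩ := UniqueFactorizationMonoid.exists_reduced_factors' r s hs0
  rw [← hb, map_mul] at hs
  refine ⟨a, b, hab, right_ne_zero_of_mul hs, ?_⟩
  rw [← ha, ← hb, map_mul, map_mul] at hrs
  refine mul_left_cancel₀ (left_ne_zero_of_mul hs) ?_
  rw [← hrs]
  ring

end Pool.Agent.Lib.MP_776403_ag.SD.CE
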