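import Pool.Agent.Lib.MP_776403_ag.SD.CE.Spec
import Pool.Agent.Lib.MP_776403_ag.SD.UK.Low

/-!
# Specialization of the parameters

The elements `l(t)^α e_i` are independent over `ℂ(t)`; for suitable complex values `t0` of the parameters
the elements `l0(t0)^α e_i`, `|α| + j_i ≤ m`, are a basis of `V ^ m` for every `m`.
-/

set_option autoImplicit false

open MvPolynomial

noncomputable section

namespace Pool.Agent.Lib.MP_776403_ag.SD.CE

open UK

namespace SpAux

/-! ### Polynomials with coefficients in a subspace -/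

section Coef

variable {σ L : Type} [Field L] [Algebra ℂ L] (V : Submodule ℂ L)

/-- All coefficients are in `V ^ k`. -/
def Cf (k : ℕ) (f : MvPolynomial σ L) : Prop := ∀ d, coeff d f ∈ V ^ k

theorem cf_mul {a b : ℕ} {f g : MvPolynomial σ L} (hf : Cf V a f) (hg : Cf V b g) :
    Cf V (a + b) (f * g) := by
  classical
  intro d
  rw [coeff_mul, pow_add]
  exact Submodule.sum_mem _ fun x _ => Submodule.mul_mem_mul (hf x.1) (hg x.2)

theorem cf_C {k : ℕ} {x : L} (hx : x ∈ V ^ k) : Cf V k (C x : MvPolynomial σ L) := by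
  classical
  intro d
  rw [coeff_C]
  split_ifs
  · exact hx
  · exact Submodule.zero_mem _

theorem cf_pow {a : ℕ} {f : MvPolynomial σ L} (hf : Cf V a f) (r : ℕ) : Cf V (a * r) (f ^ r) := by
  induction r with
  | zero =>
    rw [pow_zero, mul_zero, ← C_1]
    refine cf_C V ?_
    rw [pow_zero]
    exact Submodule.one_le.mp le_rfl
  | succ r ih =>
    rw [pow_succ, mul_add, mul_one]
    exact cf_mul V ih hf

theorem cf_prod {ι : Type} (s : Finset ι) (f : ι → MvPolynomial σ L) (a : ι → ℕ)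
    (h : ∀ i ∈ s, Cf V (a i) (f i)) : Cf V (∑ i ∈ s, a i) (∏ i ∈ s, f i) := by
  classical
  induction s using Finset.induction_on with
  | empty =>
    rw [Finset.prod_empty, Finset.sum_empty, ← C_1]
    refine cf_C V ?_
    rw [pow_zero]
    exact Submodule.one_le.mp le_rfl
  | insert i s hi ih =>
    rw [Finset.prod_insert hi, Finset.sum_insert hi]
    exact cf_mul V (h i (Finset.mem_insert_self _ _))
      (ih fun j hj => h j (Finset.mem_insert_of_mem hj))

theorem cf_mono (h1 : (1 : L) ∈ V) {a b : ℕ} (hab : a ≤ b) {f : MvPolynomial σ L}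
    (hf : Cf V a f) : Cf V b f := by
  intro d
  obtain ⟨k, rfl⟩ := Nat.exists_eq_add_of_le hab
  have h2 : (1 : L) ^ k ∈ V ^ k := Submodule.pow_mem_pow _ h1 k
  have h3 := Submodule.mul_mem_mul (hf d) h2
  rw [← pow_add] at h3
  simpa using h3

/-- The functional `φ` applied to the coefficients. -/
def cfn (φ : L →ₗ[ℂ] ℂ) (f : MvPolynomial σ L) : MvPolynomial σ ℂ :=
  ∑ d ∈ f.support, monomial d (φ (coeff d f))

theorem eval_cfn {r : ℕ} (U : Submodule ℂ L) (b : Module.Basis (Fin r) ℂ U)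
    (φ : Fin r → (L →ₗ[ℂ] ℂ)) (hφ : ∀ i (v : U), φ i v = b.repr v i)
    (f : MvPolynomial σ L) (hf : ∀ d, coeff d f ∈ U) (s : σ → L) :
    eval s f = ∑ i, aeval s (cfn (φ i) f) * (b i : L) := by
  have h1 : ∀ v : U, (v : L) = ∑ i, algebraMap ℂ L (φ i v) * (b i : L) := by
    intro v
    have h := congrArg Subtype.val (b.sum_repr v)
    push_cast at h
    refine h.symm.trans (Finset.sum_congr rfl fun i _ => ?_)
    rw [← hφ i v, Algebra.smul_def]
  rw [eval_eq]
  have h2 : ∀ i, aeval s (cfn (φ i) f) =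
      ∑ d ∈ f.support, algebraMap ℂ L (φ i (coeff d f)) * ∏ j ∈ d.support, s j ^ d j := by
    intro i
    unfold cfn
    rw [map_sum]
    refine Finset.sum_congr rfl fun d _ => ?_
    rw [aeval_monomial]
    rfl
  simp only [h2, Finset.sum_mul]
  rw [Finset.sum_comm]
  refine Finset.sum_congr rfl fun d _ => ?_
  have h3 := h1 ⟨coeff d f, hf d⟩
  change coeff d f = _ at h3
  conv_lhs => rw [h3]
  rw [Finset.sum_mul]
  refine Finset.sum_congr rfl fun i _ => ?_
  ring

end Coef

/-! ### Generic and special monomials -/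

variable {n c : ℕ} {L : Type} [Field L] [Algebra ℂ L] (G : Gen n c L)

theorem one_mem : (1 : L) ∈ G.V := Submodule.subset_span (Set.mem_insert _ _)

theorem y_mem (i : Fin n) : G.y i ∈ G.V :=
  Submodule.subset_span (Set.mem_insert_of_mem _ (Or.inl ⟨i, rfl⟩))

theorem z_mem (j : Fin c) : G.z j ∈ G.V :=
  Submodule.subset_span (Set.mem_insert_of_mem _ (Or.inr ⟨j, rfl⟩))

theorem finV : (G.V).FG := by
  unfold Gen.V Gen.W
  exact Submodule.fg_span (((Set.finite_range _).union (Set.finite_range _)).insert _)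

theorem finVm (m : ℕ) : Module.Finite ℂ (G.V ^ m : Submodule ℂ L) :=
  Module.Finite.iff_fg.mpr ((finV G).pow m)

/-- The polynomial form of `l_i`. -/
def lam (i : Fin n) : MvPolynomial (Fin n × Fin c) L :=
  C (G.y i) + ∑ j, X (i, j) * C (G.z j)

/-- The polynomial form of `l^α e_i`. -/
def Lam {D : ℕ} (e : Fin D → L) (p : Fin D × (Fin n →₀ ℕ)) : MvPolynomial (Fin n × Fin c) L :=
  (∏ i, lam G i ^ p.2 i) * C (e p.1)

theorem cf_lam (i : Fin n) : Cf G.V 1 (lam G i) := by
  classical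
  intro d
  unfold lam
  rw [coeff_add, coeff_sum, pow_one]
  refine Submodule.add_mem _ ?_ (Submodule.sum_mem _ fun j _ => ?_)
  · rw [coeff_C]
    split_ifs
    · exact y_mem G i
    · exact Submodule.zero_mem _
  · rw [mul_comm, coeff_C_mul, coeff_X]
    split_ifs
    · rw [mul_one]
      exact z_mem G j
    · rw [mul_zero]
      exact Submodule.zero_mem _

theorem cf_Lam {D : ℕ} (e : Fin D → L) (jj : Fin D → ℕ) (he : ∀ i, e i ∈ G.V ^ (jj i)) {m : ℕ}
    (p : Fin D × (Fin n →₀ ℕ)) (hp : p.2.degree + jj p.1 ≤ m) : Cf G.V m (Lam G e p) := by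
  refine cf_mono G.V (one_mem G) hp (cf_mul G.V ?_ (cf_C G.V (he p.1)))
  have h := cf_prod G.V Finset.univ (fun i => lam G i ^ p.2 i) (fun i => 1 * p.2 i)
    (fun i _ => cf_pow G.V (cf_lam G i) _)
  simp only [one_mul] at h
  rwa [← Finsupp.degree_eq_sum] at h

omit [Algebra ℂ L] in
theorem eval_Lam_t {D : ℕ} (e : Fin D → L) (p : Fin D × (Fin n →₀ ℕ)) :
    eval G.t (Lam G e p) = (∏ i, G.l i ^ p.2 i) * e p.1 := by
  unfold Lam lam Gen.l
  simp

theorem eval_Lam_t0 {D : ℕ} (e : Fin D → L) (p : Fin D × (Fin n →₀ ℕ))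
    (t0 : Fin n × Fin c → ℂ) :
    eval (fun q => algebraMap ℂ L (t0 q)) (Lam G e p) = (∏ i, l0 G t0 i ^ p.2 i) * e p.1 := by
  unfold Lam lam l0
  simp

/-- The core: special values of the parameters for one `m`. -/
theorem core {D m : ℕ} (e : Fin D → L) (jj : Fin D → ℕ) (he : ∀ i, e i ∈ G.V ^ (jj i))
    [Fintype (Ms n jj m)]
    (hcard : Fintype.card (Ms n jj m) = Module.finrank ℂ (G.V ^ m : Submodule ℂ L))
    (hat : AlgebraicIndependent ℂ G.t)
    (hind : LinearIndependent G.K0 fun p : Ms n jj m => (∏ i, G.l i ^ p.1.2 i) * e p.1.1) :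
    ∃ t0 : Fin n × Fin c → ℂ,
      LinearIndependent ℂ fun p : Ms n jj m => (∏ i, l0 G t0 i ^ p.1.2 i) * e p.1.1 := by
  classical
  have hfin := finVm G m
  let U : Submodule ℂ L := G.V ^ m
  let b := Module.finBasis ℂ U
  have hext : ∀ i, ∃ φ : L →ₗ[ℂ] ℂ, ∀ v : U, φ v = b.repr v i := by
    intro i
    obtain ⟨g, hg⟩ := (b.coord i).exists_extend
    refine ⟨g, fun v => ?_⟩
    have h := LinearMap.congr_fun hg v
    simpa using h
  choose φ hφ using hext
  let σ : Ms n jj m ≃ Fin (Module.finrank ℂ U) := Fintype.equivOfCardEq (by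
    rw [hcard, Fintype.card_fin])
  let M : Matrix (Ms n jj m) (Ms n jj m) (MvPolynomial (Fin n × Fin c) ℂ) :=
    fun p q => cfn (φ (σ q)) (Lam G e p.1)
  have hev : ∀ (p : Ms n jj m) (s : Fin n × Fin c → L),
      eval s (Lam G e p.1) = ∑ q, aeval s (M p q) * (b (σ q) : L) := by
    intro p s
    rw [eval_cfn U b φ hφ (Lam G e p.1) (cf_Lam G e jj he p.1 p.2) s]
    exact (Equiv.sum_comp σ fun i => aeval s (cfn (φ i) (Lam G e p.1)) * (b i : L)).symm
  have hdet : M.det ≠ 0 := by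
    intro h0
    obtain ⟨u, hu, hu0⟩ := Matrix.exists_vecMul_eq_zero_iff.mpr h0
    apply hu
    have hK : ∀ p, aeval G.t (u p) ∈ G.K0 := by
      intro p
      have h1 : aeval G.t (u p) ∈ Algebra.adjoin ℂ (Set.range G.t) := by
        rw [Algebra.adjoin_range_eq_range_aeval]
        exact ⟨u p, rfl⟩
      exact IntermediateField.algebra_adjoin_le_adjoin ℂ _ h1
    rw [Fintype.linearIndependent_iff] at hind
    have h2 := hind (fun p => ⟨aeval G.t (u p), hK p⟩) (by
      have h3 : ∀ p : Ms n jj m, (∏ i, G.l i ^ p.1.2 i) * e p.1.1 =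
          ∑ q, aeval G.t (M p q) * (b (σ q) : L) := by
        intro p
        rw [← eval_Lam_t G e p.1]
        exact hev p G.t
      have h4 : ∀ q, ∑ p, aeval G.t (u p) * aeval G.t (M p q) = 0 := by
        intro q
        have h5 := congrFun hu0 q
        have h6 := congrArg (aeval G.t) h5
        rw [Pi.zero_apply, map_zero, Matrix.vecMul, dotProduct, map_sum] at h6
        rw [← h6]
        exact Finset.sum_congr rfl fun p _ => (map_mul _ _ _).symm
      have h7 : ∀ p : Ms n jj m, (⟨aeval G.t (u p), hK p⟩ : G.K0) •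
          ((∏ i, G.l i ^ p.1.2 i) * e p.1.1) =
          ∑ q, aeval G.t (u p) * aeval G.t (M p q) * (b (σ q) : L) := by
        intro p
        rw [h3 p, Algebra.smul_def, Finset.mul_sum]
        refine Finset.sum_congr rfl fun q _ => ?_
        rw [← mul_assoc]
        rfl
      simp only [h7]
      rw [Finset.sum_comm]
      refine Finset.sum_eq_zero fun q _ => ?_
      rw [← Finset.sum_mul, h4 q, zero_mul])
    funext p
    have h8 := congrArg Subtype.val (h2 p)
    change aeval G.t (u p) = 0 at h8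
    exact hat (by rw [h8, Pi.zero_apply, map_zero])
  obtain ⟨t0, ht0⟩ : ∃ t0 : Fin n × Fin c → ℂ, eval t0 M.det ≠ 0 := by
    by_contra hno
    push Not at hno
    exact hdet (MvPolynomial.funext fun x => by rw [hno x, map_zero])
  refine ⟨t0, ?_⟩
  have hN : (M.map (eval t0)).det ≠ 0 := by
    have h := RingHom.map_det (eval t0) M
    rw [RingHom.mapMatrix_apply] at h
    rw [← h]
    exact ht0
  rw [Fintype.linearIndependent_iff]
  intro g hg
  have h1 : ∀ p : Ms n jj m, (∏ i, l0 G t0 i ^ p.1.2 i) * e p.1.1 =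
      ∑ q, algebraMap ℂ L (eval t0 (M p q)) * (b (σ q) : L) := by
    intro p
    rw [← eval_Lam_t0 G e p.1 t0, hev p]
    refine Finset.sum_congr rfl fun q _ => ?_
    congr 1
    have h2 := MvPolynomial.aeval_algebraMap_apply L t0 (M p q)
    rw [← MvPolynomial.coe_aeval_eq_eval]
    exact h2
  have hb : LinearIndependent ℂ fun q : Ms n jj m => (b (σ q) : L) := by
    have h3 : LinearIndependent ℂ fun i => (b i : L) :=
      b.linearIndependent.map' U.subtype (Submodule.ker_subtype U)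
    exact h3.comp σ σ.injective
  rw [Fintype.linearIndependent_iff] at hb
  have h4 := hb (fun q => ∑ p, g p * eval t0 (M p q)) (by
    rw [← hg]
    simp only [h1, Finset.smul_sum, Finset.sum_smul]
    rw [Finset.sum_comm]
    refine Finset.sum_congr rfl fun p _ => Finset.sum_congr rfl fun q _ => ?_
    rw [Algebra.smul_def, Algebra.smul_def, map_mul, mul_assoc])
  have h5 : Matrix.vecMul g (M.map (eval t0)) = 0 := by
    funext q
    rw [Matrix.vecMul, dotProduct, Pi.zero_apply]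
    exact h4 q
  exact congrFun (Matrix.eq_zero_of_vecMul_eq_zero hN h5)

/-! ### Counting -/

theorem card_Ms (hM : ∀ n d : ℕ, Nat.card {α : Fin n →₀ ℕ // α.degree ≤ d} = (n + d).choose n)
    {D : ℕ} (n : ℕ) (jj : Fin D → ℕ) (m : ℕ) :
    Finite (Ms n jj m) ∧
      Nat.card (Ms n jj m) = ∑ i, if jj i ≤ m then (n + (m - jj i)).choose n else 0 := by
  classical
  have hF : ∀ d : ℕ, Finite {α : Fin n →₀ ℕ // α.degree ≤ d} := by
    intro d
    refine Nat.finite_of_card_ne_zero ?_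
    rw [hM n d]
    exact (Nat.choose_pos (Nat.le_add_right _ _)).ne'
  let T : Fin D → Type := fun i => {α : Fin n →₀ ℕ // α.degree + jj i ≤ m}
  let E : Ms n jj m ≃ (Σ i, T i) :=
    { toFun := fun p => ⟨p.1.1, ⟨p.1.2, p.2⟩⟩
      invFun := fun p => ⟨(p.1, p.2.1), p.2.2⟩
      left_inv := fun _ => rfl
      right_inv := fun _ => rfl }
  have hT : ∀ i, Finite (T i) := by
    intro i
    have := hF m
    exact Finite.of_injective
      (fun a : T i => (⟨a.1, le_trans (Nat.le_add_right _ _) a.2⟩ :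
        {α : Fin n →₀ ℕ // α.degree ≤ m}))
      (fun a b h => Subtype.ext (Subtype.mk.inj h))
  have hTc : ∀ i, Nat.card (T i) = if jj i ≤ m then (n + (m - jj i)).choose n else 0 := by
    intro i
    split_ifs with h
    · rw [← hM n (m - jj i)]
      refine Nat.card_congr (Equiv.subtypeEquivRight fun α => ?_)
      omega
    · have : IsEmpty (T i) := ⟨fun a => h (le_trans (Nat.le_add_left _ _) a.2)⟩
      exact Nat.card_of_isEmpty
  refine ⟨Finite.of_equiv _ E.symm, ?_⟩
  rw [Nat.card_congr E, Nat.card_sigma]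
  exact Finset.sum_congr rfl fun i _ => hTc i

theorem indt0 {m0 : ℕ} (hG : G.Ok m0) : AlgebraicIndependent ℂ G.t :=
  hG.indt.restrictScalars (algebraMap ℂ G.A).injective

/-! ### The span -/

/-- The family. -/
abbrev fam {D : ℕ} (e : Fin D → L) (t0 : Fin n × Fin c → ℂ) (p : Fin D × (Fin n →₀ ℕ)) : L :=
  (∏ i, l0 G t0 i ^ p.2 i) * e p.1

/-- The span. -/
def S {D : ℕ} (e : Fin D → L) (jj : Fin D → ℕ) (t0 : Fin n × Fin c → ℂ) (m : ℕ) :
    Submodule ℂ L :=
  Submodule.span ℂ (Set.range fun p : Ms n jj m => fam G e t0 p.1)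

/-- `1, l0`. -/
def Y' (t0 : Fin n × Fin c → ℂ) : Submodule ℂ L :=
  Submodule.span ℂ (insert 1 (Set.range (l0 G t0)))

theorem l0_mem (t0 : Fin n × Fin c → ℂ) (i : Fin n) : l0 G t0 i ∈ G.V := by
  unfold l0
  refine Submodule.add_mem _ (y_mem G i) (Submodule.sum_mem _ fun j _ => ?_)
  rw [← Algebra.smul_def]
  exact Submodule.smul_mem _ _ (z_mem G j)

theorem fam_mem {D : ℕ} (e : Fin D → L) (jj : Fin D → ℕ) (he : ∀ i, e i ∈ G.V ^ (jj i))
    (t0 : Fin n × Fin c → ℂ) {m : ℕ} (p : Fin D × (Fin n →₀ ℕ))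
    (hp : p.2.degree + jj p.1 ≤ m) : fam G e t0 p ∈ G.V ^ m := by
  have h1 : ∀ s : Finset (Fin n), (∏ k ∈ s, l0 G t0 k ^ p.2 k) ∈ G.V ^ (∑ k ∈ s, p.2 k) := by
    classical
    intro s
    induction s using Finset.induction_on with
    | empty =>
      rw [Finset.prod_empty, Finset.sum_empty, pow_zero]
      exact Submodule.one_le.mp le_rfl
    | insert a s ha ih =>
      rw [Finset.prod_insert ha, Finset.sum_insert ha, pow_add]
      exact Submodule.mul_mem_mul (Submodule.pow_mem_pow _ (l0_mem G t0 a) _) ih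
  have h2 := Submodule.mul_mem_mul (h1 Finset.univ) (he p.1)
  rw [← pow_add, ← Finsupp.degree_eq_sum] at h2
  obtain ⟨k, hk⟩ := Nat.exists_eq_add_of_le hp
  have h3 := Submodule.mul_mem_mul h2 (Submodule.pow_mem_pow _ (one_mem G) k)
  rw [← pow_add, ← hk, one_pow, mul_one] at h3
  exact h3

theorem S_le {D : ℕ} (e : Fin D → L) (jj : Fin D → ℕ) (he : ∀ i, e i ∈ G.V ^ (jj i))
    (t0 : Fin n × Fin c → ℂ) (m : ℕ) : S G e jj t0 m ≤ G.V ^ m := by
  refine Submodule.span_le.mpr ?_
  rintro _ ⟨p, rfl⟩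
  exact fam_mem G e jj he t0 p.1 p.2

theorem fam_S {D : ℕ} (e : Fin D → L) (jj : Fin D → ℕ)
    (t0 : Fin n × Fin c → ℂ) {m : ℕ} (p : Fin D × (Fin n →₀ ℕ))
    (hp : p.2.degree + jj p.1 ≤ m) : fam G e t0 p ∈ S G e jj t0 m :=
  Submodule.subset_span ⟨⟨p, hp⟩, rfl⟩

theorem fam_succ {D : ℕ} (e : Fin D → L) (t0 : Fin n × Fin c → ℂ) (i : Fin D)
    (α : Fin n →₀ ℕ) (k : Fin n) :
    fam G e t0 (i, α + Finsupp.single k 1) = l0 G t0 k * fam G e t0 (i, α) := by
  classical
  have h : ∏ j, l0 G t0 j ^ (α + Finsupp.single k 1 : Fin n →₀ ℕ) j =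
      l0 G t0 k * ∏ j, l0 G t0 j ^ α j := by
    have h1 : ∀ j, l0 G t0 j ^ (α + Finsupp.single k 1 : Fin n →₀ ℕ) j =
        (if j = k then l0 G t0 j else 1) * l0 G t0 j ^ α j := by
      intro j
      rw [Finsupp.add_apply, pow_add, mul_comm]
      congr 1
      by_cases hj : j = k
      · subst hj
        simp
      · rw [if_neg hj, Finsupp.single_apply, if_neg (fun h => hj h.symm), pow_zero]
    rw [Finset.prod_congr rfl fun j _ => h1 j, Finset.prod_mul_distrib]
    congr 1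
    rw [Finset.prod_ite_eq' Finset.univ k]
    simp
  unfold fam
  rw [h, mul_assoc]

theorem Y_mul_S {D : ℕ} (e : Fin D → L) (jj : Fin D → ℕ) (t0 : Fin n × Fin c → ℂ) (m : ℕ) :
    Y' G t0 * S G e jj t0 m ≤ S G e jj t0 (m + 1) := by
  unfold Y'
  rw [S, Submodule.span_mul_span]
  refine Submodule.span_le.mpr ?_
  rintro _ ⟨a, ha, _, ⟨p, rfl⟩, rfl⟩
  obtain ⟨⟨i, α⟩, hp⟩ := p
  change a * fam G e t0 (i, α) ∈ _
  change α.degree + jj i ≤ m at hp
  rcases ha with rfl | ⟨k, rfl⟩
  · rw [one_mul]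
    exact fam_S G e jj t0 (i, α) (Nat.le_succ_of_le hp)
  · rw [← fam_succ]
    refine fam_S G e jj t0 (i, α + Finsupp.single k 1) ?_
    change (α + Finsupp.single k 1).degree + jj i ≤ m + 1
    rw [map_add, Finsupp.degree_single]
    omega

theorem S_succ {D : ℕ} (e : Fin D → L) (jj : Fin D → ℕ) (t0 : Fin n × Fin c → ℂ) (m : ℕ)
    (hM : ∀ i, jj i ≤ m) :
    S G e jj t0 (m + 1) ≤ Y' G t0 * S G e jj t0 m := by
  classical
  refine Submodule.span_le.mpr ?_
  rintro _ ⟨⟨⟨i, α⟩, hp⟩, rfl⟩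
  change fam G e t0 (i, α) ∈ _
  change α.degree + jj i ≤ m + 1 at hp
  by_cases h0 : α = 0
  · subst h0
    have h1 : fam G e t0 (i, 0) ∈ S G e jj t0 m := by
      refine fam_S G e jj t0 (i, 0) ?_
      change (0 : Fin n →₀ ℕ).degree + jj i ≤ m
      rw [map_zero, zero_add]
      exact hM i
    have h2 := Submodule.mul_mem_mul
      (Submodule.subset_span (Set.mem_insert _ _) : (1 : L) ∈ Y' G t0) h1
    rwa [one_mul] at h2
  · obtain ⟨k, hk⟩ : ∃ k, α k ≠ 0 := by
      by_contra hno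
      push Not at hno
      exact h0 (Finsupp.ext hno)
    obtain ⟨β, rfl⟩ : ∃ β, α = β + Finsupp.single k 1 := by
      refine ⟨α - Finsupp.single k 1, ?_⟩
      refine (tsub_add_cancel_of_le ?_).symm
      rw [Finsupp.single_le_iff]
      omega
    rw [fam_succ]
    rw [map_add, Finsupp.degree_single] at hp
    refine Submodule.mul_mem_mul
      (Submodule.subset_span (Set.mem_insert_of_mem _ ⟨k, rfl⟩)) (fam_S G e jj t0 (i, β) ?_)
    change β.degree + jj i ≤ m
    omega

end SpAux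

theorem tSp : UK.S_Mon → UK.S_Fk → S_Sp := by
  intro hMon _ n c m0 L _ _ G hG D e jj hind he hfr
  classical
  obtain ⟨M, hM⟩ : ∃ M : ℕ, ∀ i, jj i ≤ M := by
    refine ⟨Finset.univ.sup jj, fun i => Finset.le_sup (Finset.mem_univ i)⟩
  have hcard : ∀ m, Finite (Ms n jj m) ∧ Nat.card (Ms n jj m) =
      Module.finrank ℂ (G.V ^ m : Submodule ℂ L) := by
    intro m
    rw [hfr m]
    exact SpAux.card_Ms hMon.1 n jj m
  have hFm : ∀ m, Finite (Ms n jj m) := fun m => (hcard m).1
  have hfin : ∀ m, Module.Finite ℂ (G.V ^ m : Submodule ℂ L) := SpAux.finVm G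
  have hl : AlgebraicIndependent G.K0 G.l := hMon.2 n c m0 L G hG
  have hK : LinearIndependent G.K0
      fun p : Ms n jj (M + 1) => (∏ i, G.l i ^ p.1.2 i) * e p.1.1 := by
    have hfin' : ∀ i : Fin D, Finite {α : Fin n →₀ ℕ // α.degree ≤ M + 1 - jj i} := by
      intro i
      refine Nat.finite_of_card_ne_zero ?_
      rw [hMon.1 n (M + 1 - jj i)]
      exact (Nat.choose_pos (Nat.le_add_right _ _)).ne'
    have : ∀ i : Fin D, Fintype {α : Fin n →₀ ℕ // α.degree ≤ M + 1 - jj i} :=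
      fun i => Fintype.ofFinite _
    have h1 := LowAux.indep G (m := M + 1) hl e jj hind
    have h2 := h1.comp (fun p : Ms n jj (M + 1) =>
      (⟨p.1.1, ⟨p.1.2, Nat.le_sub_of_add_le p.2⟩⟩ :
        Σ i : Fin D, {α : Fin n →₀ ℕ // α.degree ≤ M + 1 - jj i})) (by
      rintro ⟨⟨i, α⟩, hp⟩ ⟨⟨i', α'⟩, hp'⟩ h
      simp only [Sigma.mk.injEq] at h
      obtain ⟨rfl, h3⟩ := h
      have h4 := congrArg Subtype.val (eq_of_heq h3)
      simp only at h4
      subst h4
      rfl)
    exact h2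
  have : Fintype (Ms n jj (M + 1)) := Fintype.ofFinite _
  obtain ⟨t0, ht0⟩ := SpAux.core G (m := M + 1) e jj he
    (by rw [← Nat.card_eq_fintype_card, (hcard (M + 1)).2]) (SpAux.indt0 G hG) hK
  refine ⟨t0, ?_⟩
  have hsmall : ∀ m, m ≤ M + 1 → LinearIndependent ℂ
      fun p : Ms n jj m => (∏ i, l0 G t0 i ^ p.1.2 i) * e p.1.1 := by
    intro m hm
    exact ht0.comp (fun p : Ms n jj m => (⟨p.1, le_trans p.2 hm⟩ : Ms n jj (M + 1)))
      (fun a b h => Subtype.ext (Subtype.mk.inj h))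
  have hSsmall : ∀ m, m ≤ M + 1 → SpAux.S G e jj t0 m = G.V ^ m := by
    intro m hm
    have h1 := hFm m
    have : Fintype (Ms n jj m) := Fintype.ofFinite _
    have h2 := hfin m
    refine Submodule.eq_of_le_of_finrank_eq (SpAux.S_le G e jj he t0 m) ?_
    rw [SpAux.S, finrank_span_eq_card (hsmall m hm), ← Nat.card_eq_fintype_card, (hcard m).2]
  have hVY : ∀ m, M ≤ m → G.V ^ (m + 1) ≤ SpAux.Y' G t0 * G.V ^ m := by
    intro m hm
    induction m, hm using Nat.le_induction with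
    | base =>
      rw [← hSsmall (M + 1) le_rfl, ← hSsmall M (Nat.le_succ M)]
      exact SpAux.S_succ G e jj t0 M hM
    | succ m _ ih =>
      calc G.V ^ (m + 1 + 1) = G.V * G.V ^ (m + 1) := pow_succ' _ _
        _ ≤ G.V * (SpAux.Y' G t0 * G.V ^ m) := mul_le_mul_right ih _
        _ = SpAux.Y' G t0 * (G.V * G.V ^ m) := by
          rw [← mul_assoc, mul_comm G.V (SpAux.Y' G t0), mul_assoc]
        _ = SpAux.Y' G t0 * G.V ^ (m + 1) := by rw [← pow_succ']
  have hbig : ∀ m, M ≤ m → G.V ^ m ≤ SpAux.S G e jj t0 m := by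
    intro m hm
    induction m, hm using Nat.le_induction with
    | base => exact (hSsmall M (Nat.le_succ M)).ge
    | succ m hm ih =>
      refine le_trans (hVY m hm) (le_trans (mul_le_mul_right ih _) ?_)
      exact SpAux.Y_mul_S G e jj t0 m
  have hS : ∀ m, SpAux.S G e jj t0 m = G.V ^ m := by
    intro m
    rcases le_total m M with h | h
    · exact hSsmall m (le_trans h (Nat.le_succ M))
    · exact le_antisymm (SpAux.S_le G e jj he t0 m) (hbig m h)
  intro m
  refine ⟨?_, hS m⟩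
  have h1 := hFm m
  have : Fintype (Ms n jj m) := Fintype.ofFinite _
  rw [linearIndependent_iff_card_eq_finrank_span, Set.finrank]
  have h2 : Submodule.span ℂ (Set.range fun p : Ms n jj m =>
      (∏ i, l0 G t0 i ^ p.1.2 i) * e p.1.1) = G.V ^ m := hS m
  rw [h2, ← Nat.card_eq_fintype_card, (hcard m).2]

end Pool.Agent.Lib.MP_776403_ag.SD.CE
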